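import Pool.Agent.Helper55_OPEN.Sector

/-!
Module FREL: the Rellich identity on the fan.
-/

namespace Pool.Agent.H5O.H55

open MeasureTheory Complex Filter Topology Pool.Agent.H16Iso Pool.Agent.H1Gen

/-- energy density -/
noncomputable def Ed (i : Idx) (z : ℂ) : ℝ :=
  Real.sqrt 3 * efz i.1.1 i.1.2 z ^ 2 + (Real.sqrt 3)⁻¹ * efx i.1.1 i.1.2 z ^ 2
    - lam i * Real.sqrt 3 * ef i.1.1 i.1.2 z ^ 2

/-- first component of the flux, `X` is the value of the displacement field -/
noncomputable def P1 (i : Idx) (X z : ℂ) : ℝ :=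
  X.re * Ed i z - 2 * Real.sqrt 3 * efz i.1.1 i.1.2 z
    * (X.re * efz i.1.1 i.1.2 z + X.im / Real.sqrt 3 * efx i.1.1 i.1.2 z)

/-- second component of the flux -/
noncomputable def P2 (i : Idx) (X z : ℂ) : ℝ :=
  X.im / Real.sqrt 3 * Ed i z - 2 * (Real.sqrt 3)⁻¹ * efx i.1.1 i.1.2 z
    * (X.re * efz i.1.1 i.1.2 z + X.im / Real.sqrt 3 * efx i.1.1 i.1.2 z)

/-- displacement field of a sector -/
noncomputable def Xf (al be z : ℂ) : ℂ := linPQ al be (z - ot)

theorem Xf_re (al be z : ℂ) :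
    (Xf al be z).re = al.re * (z.re - 2 / 3) + be.re * (z.im - 1 / 3) := by
  unfold Xf
  rw [linPQ_apply]
  simp only [ot, Complex.add_re, Complex.smul_re, Complex.sub_re, Complex.sub_im, smul_eq_mul]
  ring

theorem Xf_im (al be z : ℂ) :
    (Xf al be z).im = al.im * (z.re - 2 / 3) + be.im * (z.im - 1 / 3) := by
  unfold Xf
  rw [linPQ_apply]
  simp only [ot, Complex.add_im, Complex.smul_im, Complex.sub_re, Complex.sub_im, smul_eq_mul]
  ring

theorem efz_contDiff (x y : ℤ) : ContDiff ℝ 1 (efz x y) :=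
  RellichAux.efg_contDiff _ _ _ _ _ _ _

theorem efx_contDiff (x y : ℤ) : ContDiff ℝ 1 (efx x y) :=
  RellichAux.efg_contDiff _ _ _ _ _ _ _

theorem P1_contDiff (i : Idx) (al be : ℂ) : ContDiff ℝ 1 (fun z => P1 i (Xf al be z) z) := by
  have h1 : ContDiff ℝ 1 (fun z : ℂ => z.re) := Complex.reCLM.contDiff
  have h2 : ContDiff ℝ 1 (fun z : ℂ => z.im) := Complex.imCLM.contDiff
  have h3 := efz_contDiff i.1.1 i.1.2
  have h4 := efx_contDiff i.1.1 i.1.2
  have h5 := RellichAux.ef_contDiff i.1.1 i.1.2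
  unfold P1 Ed
  simp only [Xf_re, Xf_im]
  fun_prop

theorem P2_contDiff (i : Idx) (al be : ℂ) : ContDiff ℝ 1 (fun z => P2 i (Xf al be z) z) := by
  have h1 : ContDiff ℝ 1 (fun z : ℂ => z.re) := Complex.reCLM.contDiff
  have h2 : ContDiff ℝ 1 (fun z : ℂ => z.im) := Complex.imCLM.contDiff
  have h3 := efz_contDiff i.1.1 i.1.2
  have h4 := efx_contDiff i.1.1 i.1.2
  have h5 := RellichAux.ef_contDiff i.1.1 i.1.2
  unfold P2 Ed
  simp only [Xf_re, Xf_im]
  fun_prop

theorem div_P (i : Idx) (al be z : ℂ) :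
    fderiv ℝ (fun z => P1 i (Xf al be z) z) z 1 + fderiv ℝ (fun z => P2 i (Xf al be z) z) z I
      = (be.im - Real.sqrt 3 * al.re) * fderiv ℝ (ef i.1.1 i.1.2) z 1 ^ 2
        - 2 * (al.im + be.re / Real.sqrt 3) *
          (fderiv ℝ (ef i.1.1 i.1.2) z 1 * fderiv ℝ (ef i.1.1 i.1.2) z I)
        + (Real.sqrt 3 * al.re - be.im) / 3 * fderiv ℝ (ef i.1.1 i.1.2) z I ^ 2
        - lam i * (Real.sqrt 3 * al.re + be.im) * ef i.1.1 i.1.2 z ^ 2 := by
  have h3 := s3_pos.ne'
  have h33 : Real.sqrt 3 ^ 2 = 3 := by rw [sq, s3_sq]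
  obtain ⟨uzz, uzx, uxx, huz, hux, hpde⟩ := RellichAux.ef_second i.1.1 i.1.2 z
  have hu := ef_hasFDerivAt i.1.1 i.1.2 z
  rw [ef_fderiv_one, ef_fderiv_I]
  have hp : Real.sqrt 3 * uzz + (Real.sqrt 3)⁻¹ * uxx
      = - (lam i * Real.sqrt 3 * ef i.1.1 i.1.2 z) := by
    have e : (Real.sqrt 3)⁻¹ = Real.sqrt 3 / 3 := by
      field_simp
      rw [h33]
    have e2 : lam i = 4 * Real.pi ^ 2 / 9
        * (((i.1.1 : ℤ) : ℝ) ^ 2 + ((i.1.1 : ℤ) : ℝ) * ((i.1.2 : ℤ) : ℝ)
          + ((i.1.2 : ℤ) : ℝ) ^ 2) := by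
      simp [lam, Nf]
    rw [e, e2]
    linear_combination Real.sqrt 3 * hpde
  have hre : HasFDerivAt (fun z : ℂ => z.re - 2 / 3) reCLM z :=
    reCLM.hasFDerivAt.sub_const (2 / 3 : ℝ)
  have him : HasFDerivAt (fun z : ℂ => z.im - 1 / 3) imCLM z :=
    imCLM.hasFDerivAt.sub_const (1 / 3 : ℝ)
  have hX1 : HasFDerivAt (fun z : ℂ => al.re * (z.re - 2 / 3) + be.re * (z.im - 1 / 3))
      (al.re • reCLM + be.re • imCLM) z := (hre.const_mul al.re).add (him.const_mul be.re)
  have hX2 : HasFDerivAt (fun z : ℂ => (al.im * (z.re - 2 / 3) + be.im * (z.im - 1 / 3))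
      * (Real.sqrt 3)⁻¹) ((Real.sqrt 3)⁻¹ • (al.im • reCLM + be.im • imCLM)) z :=
    ((hre.const_mul al.im).add (him.const_mul be.im)).mul_const _
  have hE := ((((huz.pow 2).const_mul (Real.sqrt 3)).add
    ((hux.pow 2).const_mul (Real.sqrt 3)⁻¹))).sub
    ((hu.pow 2).const_mul (lam i * Real.sqrt 3))
  have hW := (hX1.mul huz).add (hX2.mul hux)
  have g1 := (hX1.mul hE).sub ((huz.const_mul (2 * Real.sqrt 3)).mul hW)
  have g2 := (hX2.mul hE).sub ((hux.const_mul (2 * (Real.sqrt 3)⁻¹)).mul hW)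
  have f1 : (fun z => P1 i (Xf al be z) z) = fun z =>
      (al.re * (z.re - 2 / 3) + be.re * (z.im - 1 / 3)) *
        (Real.sqrt 3 * efz i.1.1 i.1.2 z ^ 2 + (Real.sqrt 3)⁻¹ * efx i.1.1 i.1.2 z ^ 2
          - lam i * Real.sqrt 3 * ef i.1.1 i.1.2 z ^ 2)
      - 2 * Real.sqrt 3 * efz i.1.1 i.1.2 z
        * ((al.re * (z.re - 2 / 3) + be.re * (z.im - 1 / 3)) * efz i.1.1 i.1.2 z
          + (al.im * (z.re - 2 / 3) + be.im * (z.im - 1 / 3)) * (Real.sqrt 3)⁻¹
            * efx i.1.1 i.1.2 z) := by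
    funext z
    unfold P1 Ed
    rw [Xf_re, Xf_im]
    ring
  have f2 : (fun z => P2 i (Xf al be z) z) = fun z =>
      ((al.im * (z.re - 2 / 3) + be.im * (z.im - 1 / 3)) * (Real.sqrt 3)⁻¹) *
        (Real.sqrt 3 * efz i.1.1 i.1.2 z ^ 2 + (Real.sqrt 3)⁻¹ * efx i.1.1 i.1.2 z ^ 2
          - lam i * Real.sqrt 3 * ef i.1.1 i.1.2 z ^ 2)
      - 2 * (Real.sqrt 3)⁻¹ * efx i.1.1 i.1.2 z
        * ((al.re * (z.re - 2 / 3) + be.re * (z.im - 1 / 3)) * efz i.1.1 i.1.2 z
          + (al.im * (z.re - 2 / 3) + be.im * (z.im - 1 / 3)) * (Real.sqrt 3)⁻¹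
            * efx i.1.1 i.1.2 z) := by
    funext z
    unfold P2 Ed
    rw [Xf_re, Xf_im]
    ring
  have e1 : fderiv ℝ (fun z => P1 i (Xf al be z) z) z = _ :=
    (congrArg (fun f => fderiv ℝ f z) f1).trans g1.fderiv
  have e2 : fderiv ℝ (fun z => P2 i (Xf al be z) z) z = _ :=
    (congrArg (fun f => fderiv ℝ f z) f2).trans g2.fderiv
  rw [e1, e2]
  simp only [add_apply, sub_apply, smul_apply, smul_eq_mul, imCLM_apply, reCLM_apply, one_im,
    one_re, I_im, I_re, mul_zero, mul_one, zero_add, add_zero]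
  have hs : (Real.sqrt 3)⁻¹ = Real.sqrt 3 / 3 := by
    field_simp
    rw [h33]
  have hdiv : be.re / Real.sqrt 3 = be.re * (Real.sqrt 3 / 3) := by
    rw [div_eq_mul_inv, hs]
  rw [hdiv]
  rw [hs] at hp ⊢
  clear g1 g2 f1 f2 e1 e2 hW hE hX1 hX2 hu huz hux hre him hpde
  simp
  generalize efz i.1.1 i.1.2 z = uz at *
  generalize efx i.1.1 i.1.2 z = ux at *
  generalize ef i.1.1 i.1.2 z = u at *
  linear_combination (-2 * ((al.re * (z.re - 2 / 3) + be.re * (z.im - 1 / 3)) * uz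
    + (al.im * (z.re - 2 / 3) + be.im * (z.im - 1 / 3)) * (Real.sqrt 3 / 3) * ux)) * hp
    + (be.im * uz ^ 2 / 3 - be.im * ux ^ 2 / 9 - lam i * be.im * u ^ 2 / 3
      - 2 / 3 * al.im * uz * ux) * h33

/-! ### the outer side -/

theorem ef_side (x y : ℤ) {k : Fin 3} {z : ℂ} (h : bt3 k z = 0) : ef x y z = 0 := by
  apply ef_boundary
  fin_cases k
  · right; left
    have h' : 1 - z.re = 0 := h
    linarith
  · right; right
    have h' : z.re - z.im = 0 := h
    linarith
  · left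
    exact h

section

variable {n : ℕ} {p : Fin (n + 3) → ℂ}

/-- the point of the outer side with parameter `t` -/
noncomputable def zt (p : Fin (n + 3) → ℂ) (j : Fin (n + 3)) (t : ℝ) : ℂ :=
  ot + (pt p j + t • (pt p (j + 1) - pt p j))

theorem zt_bt (hw : WC p) (hi : Function.Injective p) (hp : poly p = poly crn)
    (j : Fin (n + 3)) : ∃ k, ∀ t, bt3 k (zt p j t) = 0 := by
  obtain ⟨k, h1, h2⟩ := same_side hw hi hp j
  refine ⟨k, fun t => ?_⟩
  have e : zt p j t = ot + ((1 - t) • ((pt p j + ot) - ot) + t • ((pt p (j + 1) + ot) - ot)) := by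
    unfold zt
    rw [add_sub_cancel_right, add_sub_cancel_right, smul_sub, sub_smul, one_smul]
    ring
  rw [e, bt3_comb, bt3_pt, bt3_pt, h1, h2]
  ring

theorem ef_zt (hw : WC p) (hi : Function.Injective p) (hp : poly p = poly crn)
    (j : Fin (n + 3)) (x y : ℤ) (t : ℝ) : ef x y (zt p j t) = 0 := by
  obtain ⟨k, hk⟩ := zt_bt hw hi hp j
  exact ef_side x y (hk t)

theorem grad_zt (hw : WC p) (hi : Function.Injective p) (hp : poly p = poly crn)
    (j : Fin (n + 3)) (x y : ℤ) (t : ℝ) :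
    efz x y (zt p j t) * (pt p (j + 1) - pt p j).re
      + efx x y (zt p j t) * (pt p (j + 1) - pt p j).im = 0 := by
  set e := pt p (j + 1) - pt p j with he
  have hz : HasDerivAt (fun t : ℝ => zt p j t) e t := by
    have h := (hasDerivAt_id t).smul_const e
    rw [one_smul] at h
    exact (h.const_add (pt p j)).const_add ot
  have h1 : HasDerivAt (fun t : ℝ => ef x y (zt p j t))
      ((efx x y (zt p j t) • imCLM + efz x y (zt p j t) • reCLM) e) t :=
    HasFDerivAt.comp_hasDerivAt (f := fun t : ℝ => zt p j t) t (ef_hasFDerivAt x y (zt p j t)) hz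
  have h2 : (fun t : ℝ => ef x y (zt p j t)) = fun _ => 0 := funext fun t => ef_zt hw hi hp j x y t
  rw [h2] at h1
  have h3 := h1.unique (hasDerivAt_const t (0 : ℝ))
  simp at h3
  linarith

theorem flux_zt (hw : WC p) (hi : Function.Injective p) (hp : poly p = poly crn)
    (j : Fin (n + 3)) (i : Idx) (X : ℂ) (t : ℝ) :
    P1 i X (zt p j t) * (pt p (j + 1) - pt p j).im - P2 i X (zt p j t) * (pt p (j + 1) - pt p j).re
      = det (p (j + 1) - p j) X
        * (efz i.1.1 i.1.2 (zt p j t) ^ 2 + efx i.1.1 i.1.2 (zt p j t) ^ 2 / 3) := by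
  have h3 := s3_pos.ne'
  have h33 : Real.sqrt 3 ^ 2 = 3 := by rw [sq, s3_sq]
  have hg := grad_zt hw hi hp j i.1.1 i.1.2 t
  have h0 := ef_zt hw hi hp j i.1.1 i.1.2 t
  have er : (pt p (j + 1) - pt p j).re = (p (j + 1) - p j).re := by
    unfold pt
    simp
  have ei : (pt p (j + 1) - pt p j).im = (p (j + 1) - p j).im / Real.sqrt 3 := by
    unfold pt
    simp only [Complex.sub_im]
    ring
  unfold P1 P2 Ed det
  rw [h0]
  rw [er, ei] at hg
  rw [er, ei]
  generalize efz i.1.1 i.1.2 (zt p j t) = uz at *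
  generalize efx i.1.1 i.1.2 (zt p j t) = ux at *
  generalize (p (j + 1) - p j).re = a at *
  generalize (p (j + 1) - p j).im = b at *
  have hs : (Real.sqrt 3)⁻¹ = Real.sqrt 3 / 3 := by
    field_simp
    rw [h33]
  rw [div_eq_mul_inv, hs] at hg
  simp only [div_eq_mul_inv (X.im), div_eq_mul_inv b, hs]
  linear_combination ((a * X.im - b * X.re) * (uz ^ 2 + ux ^ 2 / 3) / 3) * h33
    + (-2) * (-X.re * (Real.sqrt 3 / 3) * ux + X.im * (Real.sqrt 3 / 3) * Real.sqrt 3 * uz) * hg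

theorem lin_left (d : Fin (n + 3) → ℂ) (j : Fin (n + 3))
    (h : det (pt p j) (pt p (j + 1)) ≠ 0) : linPQ (alF p d j) (beF p d j) (pt p j) = d j := by
  have h1 := inv_mul_cancel₀ h
  unfold alF beF
  rw [linPQ_apply]
  generalize hD : (det (pt p j) (pt p (j + 1)))⁻¹ = D at *
  unfold det at h1
  apply Complex.ext
  · simp only [Complex.add_re, Complex.smul_re, Complex.sub_re, smul_eq_mul]
    linear_combination (d j).re * h1
  · simp only [Complex.add_im, Complex.smul_im, Complex.sub_im, smul_eq_mul]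
    linear_combination (d j).im * h1

theorem lin_right (d : Fin (n + 3) → ℂ) (j : Fin (n + 3))
    (h : det (pt p j) (pt p (j + 1)) ≠ 0) :
    linPQ (alF p d j) (beF p d j) (pt p (j + 1)) = d (j + 1) := by
  have h1 := inv_mul_cancel₀ h
  unfold alF beF
  rw [linPQ_apply]
  generalize hD : (det (pt p j) (pt p (j + 1)))⁻¹ = D at *
  unfold det at h1
  apply Complex.ext
  · simp only [Complex.add_re, Complex.smul_re, Complex.sub_re, smul_eq_mul]
    linear_combination (d (j + 1)).re * h1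
  · simp only [Complex.add_im, Complex.smul_im, Complex.sub_im, smul_eq_mul]
    linear_combination (d (j + 1)).im * h1

/-- flux through the ray number `j` -/
noncomputable def fluxJ (p d : Fin (n + 3) → ℂ) (i : Idx) (j : Fin (n + 3)) : ℝ :=
  ∫ r in (0 : ℝ)..1, (P1 i (r • d j) (ot + r • pt p j) * (pt p j).im
    - P2 i (r • d j) (ot + r • pt p j) * (pt p j).re)

end

/-- FREL -/
theorem frel : FrelStatement := by
  intro n p d hF i
  obtain ⟨hw, hi, hp, -⟩ := hF
  have hs3 := s3_pos.ne'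
  have hD : ∀ j, det (pt p j) (pt p (j + 1)) ≠ 0 := fun j => (det_pt_pos (fpos hw hi hp) j).ne'
  have hterm : ∀ j, ∫ z in secF p j ∩ Tri,
      (((beF p d j).im - Real.sqrt 3 * (alF p d j).re) * fderiv ℝ (ef i.1.1 i.1.2) z 1 ^ 2
        - 2 * ((alF p d j).im + (beF p d j).re / Real.sqrt 3) *
          (fderiv ℝ (ef i.1.1 i.1.2) z 1 * fderiv ℝ (ef i.1.1 i.1.2) z I)
        + (Real.sqrt 3 * (alF p d j).re - (beF p d j).im) / 3
          * fderiv ℝ (ef i.1.1 i.1.2) z I ^ 2
        - lam i * (Real.sqrt 3 * (alF p d j).re + (beF p d j).im) * ef i.1.1 i.1.2 z ^ 2)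
      = -(3 * Real.sqrt 3 / 8) * (sl p j * ∫ t in (0 : ℝ)..1,
          ((1 - t) * nc p j (d j) + t * nc p j (d (j + 1)))
            * EE i (p j + (t : ℂ) * (p (j + 1) - p j)))
        + (fluxJ p d i j - fluxJ p d i (j + 1)) := by
    intro j
    simp only [← div_P]
    rw [div_secF hw hi hp j (P1_contDiff i _ _) (P2_contDiff i _ _)]
    congr 1
    · rw [← mul_assoc, ← intervalIntegral.integral_const_mul]
      congr 1
      funext t
      have hX : Xf (alF p d j) (beF p d j) (ot + (pt p j + t • (pt p (j + 1) - pt p j)))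
          = (1 - t) • d j + t • d (j + 1) := by
        unfold Xf
        rw [add_sub_cancel_left, map_add, map_smul, map_sub, lin_left d j (hD j),
          lin_right d j (hD j), smul_sub, sub_smul, one_smul]
        ring
      have hfl := flux_zt hw hi hp j i ((1 - t) • d j + t • d (j + 1)) t
      unfold zt at hfl
      rw [hX, hfl]
      have hsl : sl p j ≠ 0 := by
        unfold sl
        rw [norm_ne_zero_iff, sub_ne_zero]
        exact fun h => next_ne j (hi h)
      have hpt : (⟨(p j + (t : ℂ) * (p (j + 1) - p j)).re,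
          (p j + (t : ℂ) * (p (j + 1) - p j)).im / Real.sqrt 3⟩ : ℂ)
          = ot + (pt p j + t • (pt p (j + 1) - pt p j)) := by
        unfold pt
        apply Complex.ext
        · simp
          ring
        · simp
          ring
      unfold EE nc
      rw [hpt, ef_fderiv_one, ef_fderiv_I, det_add_right, det_smul_right, det_smul_right]
      field_simp
      ring
    · have f1 : fluxR (fun z => P1 i (Xf (alF p d j) (beF p d j) z) z)
          (fun z => P2 i (Xf (alF p d j) (beF p d j) z) z) (pt p j) = fluxJ p d i j := by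
        unfold fluxR fluxJ
        congr 1
        funext r
        have hX : Xf (alF p d j) (beF p d j) (ot + r • pt p j) = r • d j := by
          unfold Xf
          rw [add_sub_cancel_left, map_smul, lin_left d j (hD j)]
        beta_reduce
        rw [hX]
      have f2 : fluxR (fun z => P1 i (Xf (alF p d j) (beF p d j) z) z)
          (fun z => P2 i (Xf (alF p d j) (beF p d j) z) z) (pt p (j + 1))
          = fluxJ p d i (j + 1) := by
        unfold fluxR fluxJ
        congr 1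
        funext r
        have hX : Xf (alF p d j) (beF p d j) (ot + r • pt p (j + 1)) = r • d (j + 1) := by
          unfold Xf
          rw [add_sub_cancel_left, map_smul, lin_right d j (hD j)]
        beta_reduce
        rw [hX]
      rw [f1, f2]
  rw [Finset.sum_congr rfl (fun j _ => hterm j), Finset.sum_add_distrib, Finset.sum_sub_distrib,
    ← Finset.mul_sum]
  have hcyc : ∑ j, fluxJ p d i (j + 1) = ∑ j, fluxJ p d i j :=
    Equiv.sum_comp (Equiv.addRight (1 : Fin (n + 3))) (fluxJ p d i)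
  rw [hcyc, sub_self, add_zero]
  rfl

end Pool.Agent.H5O.H55
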