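import Pool.Agent.Helper55_OPEN.FanOp
import Pool.Agent.Helper55_OPEN.Frel
import Pool.Agent.Helper1_Gen.FormTools
import Pool.Agent.Helper1_Gen.GtrDeriv
import Pool.Agent.Helper1_Gen.ModelExists
import Pool.Agent.Helper5_OPEN.Stmt

/-!
Module FAN: the trace functional near a triangle with flat vertices and its derivative.
-/

namespace Pool.Agent.H5O.H55

open MeasureTheory Complex Filter Topology Pool.Agent.H16Iso Pool.Agent.H1Gen
open scoped InnerProductSpace

section

variable {n : ℕ} {p : Fin (n + 3) → ℂ}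

theorem alF_line (hf : FPos p) (d : Fin (n + 3) → ℂ) (j : Fin (n + 3)) (t : ℝ) :
    alF p (fun k => (p + t • d) k - oc) j = 1 + t • alF p d j := by
  rw [← alF_base hf j]
  unfold alF
  simp only [Pi.add_apply, Pi.smul_apply]
  generalize (det (pt p j) (pt p (j + 1)))⁻¹ = D
  apply Complex.ext
  · simp only [Complex.sub_re, Complex.smul_re, Complex.add_re, smul_eq_mul]
    ring
  · simp only [Complex.sub_im, Complex.smul_im, Complex.add_im, smul_eq_mul]
    ring

theorem beF_line (hf : FPos p) (d : Fin (n + 3) → ℂ) (j : Fin (n + 3)) (t : ℝ) :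
    beF p (fun k => (p + t • d) k - oc) j = ⟨0, Real.sqrt 3⟩ + t • beF p d j := by
  rw [← beF_base hf j]
  unfold beF
  simp only [Pi.add_apply, Pi.smul_apply]
  generalize (det (pt p j) (pt p (j + 1)))⁻¹ = D
  apply Complex.ext
  · simp only [Complex.sub_re, Complex.smul_re, Complex.add_re, smul_eq_mul]
    ring
  · simp only [Complex.sub_im, Complex.smul_im, Complex.add_im, smul_eq_mul]
    ring

theorem lin_deriv (a b : ℝ) : HasDerivAt (fun t : ℝ => a + t * b) b 0 := by
  have h := ((hasDerivAt_id (0 : ℝ)).mul_const b).const_add a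
  rw [one_mul] at h
  exact h

variable (hf : FPos p) (d : Fin (n + 3) → ℂ) (j : Fin (n + 3))

include hf in
theorem cJF_line (t : ℝ) : cJF p (p + t • d) j
    = (1 + t * (alF p d j).re) * (Real.sqrt 3 + t * (beF p d j).im)
      - (0 + t * (alF p d j).im) * (0 + t * (beF p d j).re) := by
  unfold cJF
  rw [alF_line hf, beF_line hf]
  unfold det
  simp

include hf in
theorem cJF_deriv : HasDerivAt (fun t : ℝ => cJF p (p + t • d) j)
    (Real.sqrt 3 * (alF p d j).re + (beF p d j).im) 0 := by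
  simp only [cJF_line hf]
  have h := ((lin_deriv 1 (alF p d j).re).mul (lin_deriv (Real.sqrt 3) (beF p d j).im)).sub
    ((lin_deriv 0 (alF p d j).im).mul (lin_deriv 0 (beF p d j).re))
  refine h.congr_deriv ?_
  ring

include hf in
theorem c1F_deriv : HasDerivAt (fun t : ℝ => c1F p (p + t • d) j)
    ((beF p d j).im - Real.sqrt 3 * (alF p d j).re) 0 := by
  have h3 := s3_pos.ne'
  have h33 : Real.sqrt 3 ^ 2 = 3 := by rw [sq, s3_sq]
  have hJ0 : cJF p (p + (0 : ℝ) • d) j = Real.sqrt 3 := by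
    rw [zero_smul, add_zero, cJF_base hf]
  have e : (fun t : ℝ => c1F p (p + t • d) j) = fun t : ℝ =>
      ((0 + t * (beF p d j).re) * (0 + t * (beF p d j).re)
        + (Real.sqrt 3 + t * (beF p d j).im) * (Real.sqrt 3 + t * (beF p d j).im))
        / cJF p (p + t • d) j := by
    funext t
    unfold c1F
    rw [beF_line hf, normSq_apply]
    simp
  rw [e]
  have h := (((lin_deriv 0 (beF p d j).re).mul (lin_deriv 0 (beF p d j).re)).add
    ((lin_deriv (Real.sqrt 3) (beF p d j).im).mul (lin_deriv (Real.sqrt 3) (beF p d j).im))).div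
    (cJF_deriv hf d j) (by rw [hJ0]; exact h3)
  refine h.congr_deriv ?_
  simp only [hJ0, Pi.add_apply, Pi.mul_apply, zero_mul, mul_zero, add_zero, zero_add]
  field_simp
  linear_combination (2 * (beF p d j).im - Real.sqrt 3 * (alF p d j).re - (beF p d j).im) * h33
    - ((beF p d j).im - Real.sqrt 3 * (alF p d j).re) * h33

include hf in
theorem c2F_deriv : HasDerivAt (fun t : ℝ => c2F p (p + t • d) j)
    (-((alF p d j).im + (beF p d j).re / Real.sqrt 3)) 0 := by
  have h3 := s3_pos.ne'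
  have h33 : Real.sqrt 3 ^ 2 = 3 := by rw [sq, s3_sq]
  have hJ0 : cJF p (p + (0 : ℝ) • d) j = Real.sqrt 3 := by
    rw [zero_smul, add_zero, cJF_base hf]
  have e : (fun t : ℝ => c2F p (p + t • d) j) = fun t : ℝ =>
      -((1 + t * (alF p d j).re) * (0 + t * (beF p d j).re)
        + (0 + t * (alF p d j).im) * (Real.sqrt 3 + t * (beF p d j).im))
        / cJF p (p + t • d) j := by
    funext t
    unfold c2F
    rw [beF_line hf, alF_line hf]
    simp
  rw [e]
  have h := (((lin_deriv 1 (alF p d j).re).mul (lin_deriv 0 (beF p d j).re)).add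
    ((lin_deriv 0 (alF p d j).im).mul (lin_deriv (Real.sqrt 3) (beF p d j).im))).neg.div
    (cJF_deriv hf d j) (by rw [hJ0]; exact h3)
  refine h.congr_deriv ?_
  simp only [hJ0, Pi.add_apply, Pi.mul_apply, Pi.neg_apply, zero_mul, mul_zero, add_zero, zero_add]
  field_simp
  ring

include hf in
theorem c3F_deriv : HasDerivAt (fun t : ℝ => c3F p (p + t • d) j)
    ((Real.sqrt 3 * (alF p d j).re - (beF p d j).im) / 3) 0 := by
  have h3 := s3_pos.ne'
  have h33 : Real.sqrt 3 ^ 2 = 3 := by rw [sq, s3_sq]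
  have hJ0 : cJF p (p + (0 : ℝ) • d) j = Real.sqrt 3 := by
    rw [zero_smul, add_zero, cJF_base hf]
  have e : (fun t : ℝ => c3F p (p + t • d) j) = fun t : ℝ =>
      ((1 + t * (alF p d j).re) * (1 + t * (alF p d j).re)
        + (0 + t * (alF p d j).im) * (0 + t * (alF p d j).im))
        / cJF p (p + t • d) j := by
    funext t
    unfold c3F
    rw [alF_line hf, normSq_apply]
    simp
  rw [e]
  have h := (((lin_deriv 1 (alF p d j).re).mul (lin_deriv 1 (alF p d j).re)).add
    ((lin_deriv 0 (alF p d j).im).mul (lin_deriv 0 (alF p d j).im))).div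
    (cJF_deriv hf d j) (by rw [hJ0]; exact h3)
  refine h.congr_deriv ?_
  simp only [hJ0, Pi.add_apply, Pi.mul_apply, zero_mul, mul_zero, add_zero, zero_add]
  rw [h33]
  ring

open ContinuousLinearMap in
theorem inner_adjF (S : Set ℂ) (hS : MeasurableSet S) (A B : H →L[ℝ] L2T) (f : H)
    {a b : ℂ → ℝ} {c : ℝ} (hA : (A f : ℂ → ℝ) =ᵐ[volume.restrict Tri] fun z => c * a z)
    (hB : (B f : ℂ → ℝ) =ᵐ[volume.restrict Tri] fun z => c * b z) :
    ⟪(adjoint A ∘L cut S hS ∘L B) f, f⟫_ℝ = c * c * ∫ z in S ∩ Tri, b z * a z := by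
  rw [comp_apply, adjoint_inner_left, comp_apply, DB.inner_cut, ← integral_const_mul]
  refine integral_congr_ae ?_
  have h : volume.restrict (S ∩ Tri) ≤ volume.restrict Tri :=
    Measure.restrict_mono Set.inter_subset_right le_rfl
  filter_upwards [hA.filter_mono (ae_mono h), hB.filter_mono (ae_mono h)] with z h1 h2
  rw [h1, h2]
  ring

theorem integrable_adjF (S : Set ℂ) (f g : L2T)
    {a b : ℂ → ℝ} {c : ℝ} (hc : c ≠ 0)
    (hA : (f : ℂ → ℝ) =ᵐ[volume.restrict Tri] fun z => c * a z)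
    (hB : (g : ℂ → ℝ) =ᵐ[volume.restrict Tri] fun z => c * b z) :
    IntegrableOn (fun z => b z * a z) (S ∩ Tri) := by
  have h1 := (DB.integrable_L2T g f).const_mul (c⁻¹ * c⁻¹)
  have h2 : Integrable (fun z => b z * a z) (volume.restrict Tri) := by
    refine h1.congr ?_
    filter_upwards [hA, hB] with z h1 h2
    rw [h1, h2]
    field_simp
  exact h2.mono_measure (Measure.restrict_mono Set.inter_subset_right le_rfl)

open ContinuousLinearMap in
theorem gF_hasDerivAt (M : Model) (hF : Flat p) {s : ℝ} (hs : 0 ≤ s) (d : Fin (n + 3) → ℂ) :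
    HasDerivAt (fun t : ℝ => gF M p s (p + t • d))
      (∑' i : Idx, 2 * ((lam i + s) ^ 3)⁻¹
          * LL p (fun j => nc p j (d j)) (fun j => nc p j (d (j + 1))) i) 0 := by
  obtain ⟨hw, hi, hp, -⟩ := id hF
  have hf := fpos hw hi hp
  set B' : H →L[ℝ] H := ∑ j, (((beF p d j).im - Real.sqrt 3 * (alF p d j).re) •
      (adjoint M.D1 ∘L cutF p j ∘L M.D1)
    + (-((alF p d j).im + (beF p d j).re / Real.sqrt 3)) •
        (adjoint M.D1 ∘L cutF p j ∘L M.D2 + adjoint M.D2 ∘L cutF p j ∘L M.D1)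
    + ((Real.sqrt 3 * (alF p d j).re - (beF p d j).im) / 3) •
      (adjoint M.D2 ∘L cutF p j ∘L M.D2)) with hB'
  have hB : HasDerivAt (fun t : ℝ => BopF M p (p + t • d)) B' 0 := by
    unfold BopF
    apply HasDerivAt.fun_sum
    intro j _
    exact (((c1F_deriv hf d j).smul_const (adjoint M.D1 ∘L cutF p j ∘L M.D1)).add
      ((c2F_deriv hf d j).smul_const
        (adjoint M.D1 ∘L cutF p j ∘L M.D2 + adjoint M.D2 ∘L cutF p j ∘L M.D1))).add
      ((c3F_deriv hf d j).smul_const (adjoint M.D2 ∘L cutF p j ∘L M.D2))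
  have hC0 : ∀ i, (∑ j, cJF p (p + (0 : ℝ) • d) j • (adjoint M.D0 ∘L cutF p j ∘L M.D0)) (bs i) =
      (lam i)⁻¹ • bs i := by
    intro i
    rw [zero_smul, add_zero]
    exact CopF_base M hw hi hp i
  have hB0 : (fun t : ℝ => BopF M p (p + t • d)) 0 = 1 := by
    simp only [zero_smul, add_zero]
    exact BopF_base M hw hi hp
  have hl : ∃ c > 0, ∀ i : Idx, c ≤ lam i := by
    refine ⟨4 * Real.pi ^ 2 / 9, by positivity, fun i => ?_⟩
    unfold lam
    have h : 1 ≤ (Nf i : ℝ) := by
      have : 0 < Nf i := by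
        unfold Nf
        have := i.2.1
        positivity
      exact_mod_cast this
    exact le_mul_of_one_le_right (by positivity) h
  have key := gtr_hasDerivAt bs (B := fun t : ℝ => BopF M p (p + t • d))
    (d := fun j t => cJF p (p + t • d) j) (M := fun j => adjoint M.D0 ∘L cutF p j ∘L M.D0)
    (fun j => mass_cut_hs M _ _) (fun j => massF_sa M _ _)
    (fun t => BopF_selfAdjoint M p _) hs hB (fun j => cJF_deriv hf d j) hB0 hl hC0
  have hterm : ∀ i : Idx, -2 * ((lam i + s) ^ 3)⁻¹ *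
        (lam i * (⟪B' (bs i), bs i⟫_ℝ - lam i *
          ⟪(∑ j, (Real.sqrt 3 * (alF p d j).re + (beF p d j).im) •
            (adjoint M.D0 ∘L cutF p j ∘L M.D0)) (bs i),
            bs i⟫_ℝ)) = 2 * ((lam i + s) ^ 3)⁻¹
          * LL p (fun j => nc p j (d j)) (fun j => nc p j (d (j + 1))) i := by
    intro i
    have hr := frel n p d hF i
    have hk : (DB.kap i)⁻¹ ≠ 0 := inv_ne_zero (DB.kap_pos i).ne'
    have hD0 := DB.D0_bs M i
    have hD1 := DB.D1_bs M i
    have hD2 := DB.D2_bs M i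
    have e1 : ⟪B' (bs i), bs i⟫_ℝ - lam i *
          ⟪(∑ j, (Real.sqrt 3 * (alF p d j).re + (beF p d j).im) •
            (adjoint M.D0 ∘L cutF p j ∘L M.D0)) (bs i),
            bs i⟫_ℝ = (DB.kap i)⁻¹ * (DB.kap i)⁻¹ * ∑ j, ∫ z in secF p j ∩ Tri,
      (((beF p d j).im - Real.sqrt 3 * (alF p d j).re) * fderiv ℝ (ef i.1.1 i.1.2) z 1 ^ 2
        - 2 * ((alF p d j).im + (beF p d j).re / Real.sqrt 3) *
          (fderiv ℝ (ef i.1.1 i.1.2) z 1 * fderiv ℝ (ef i.1.1 i.1.2) z I)
        + (Real.sqrt 3 * (alF p d j).re - (beF p d j).im) / 3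
          * fderiv ℝ (ef i.1.1 i.1.2) z I ^ 2
        - lam i * (Real.sqrt 3 * (alF p d j).re + (beF p d j).im) * ef i.1.1 i.1.2 z ^ 2) := by
      rw [hB', sum_apply, sum_apply, sum_inner, sum_inner, Finset.mul_sum, Finset.mul_sum,
        ← Finset.sum_sub_distrib]
      refine Finset.sum_congr rfl fun j _ => ?_
      simp only [add_apply, smul_apply, inner_add_left, real_inner_smul_left]
      rw [inner_adjF _ _ M.D1 M.D1 (bs i) hD1 hD1, inner_adjF _ _ M.D1 M.D2 (bs i) hD1 hD2,
        inner_adjF _ _ M.D2 M.D1 (bs i) hD2 hD1, inner_adjF _ _ M.D2 M.D2 (bs i) hD2 hD2,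
        inner_adjF _ _ M.D0 M.D0 (bs i) hD0 hD0]
      have i11 := integrable_adjF (secF p j) _ _ hk hD1 hD1
      have i12 := integrable_adjF (secF p j) _ _ hk hD2 hD1
      have i22 := integrable_adjF (secF p j) _ _ hk hD2 hD2
      have i00 := integrable_adjF (secF p j) _ _ hk hD0 hD0
      generalize (alF p d j).re = ar
      generalize (alF p d j).im = ai
      generalize (beF p d j).re = br
      generalize (beF p d j).im = bi
      have e2 : ∫ z in secF p j ∩ Tri,
          ((bi - Real.sqrt 3 * ar) * fderiv ℝ (ef i.1.1 i.1.2) z 1 ^ 2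
            - 2 * (ai + br / Real.sqrt 3) *
              (fderiv ℝ (ef i.1.1 i.1.2) z 1 * fderiv ℝ (ef i.1.1 i.1.2) z I)
            + (Real.sqrt 3 * ar - bi) / 3 * fderiv ℝ (ef i.1.1 i.1.2) z I ^ 2
            - lam i * (Real.sqrt 3 * ar + bi) * ef i.1.1 i.1.2 z ^ 2) =
          (bi - Real.sqrt 3 * ar) * (∫ z in secF p j ∩ Tri,
            fderiv ℝ (ef i.1.1 i.1.2) z 1 * fderiv ℝ (ef i.1.1 i.1.2) z 1)
          - 2 * (ai + br / Real.sqrt 3) * (∫ z in secF p j ∩ Tri,
            fderiv ℝ (ef i.1.1 i.1.2) z 1 * fderiv ℝ (ef i.1.1 i.1.2) z I)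
          + (Real.sqrt 3 * ar - bi) / 3 * (∫ z in secF p j ∩ Tri,
            fderiv ℝ (ef i.1.1 i.1.2) z I * fderiv ℝ (ef i.1.1 i.1.2) z I)
          - lam i * (Real.sqrt 3 * ar + bi) * (∫ z in secF p j ∩ Tri,
            ef i.1.1 i.1.2 z * ef i.1.1 i.1.2 z) := by
        rw [← integral_const_mul, ← integral_const_mul, ← integral_const_mul,
          ← integral_const_mul, ← integral_sub, ← integral_add, ← integral_sub]
        · refine integral_congr_ae (Filter.Eventually.of_forall fun z => ?_)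
          dsimp only
          ring
        · exact ((i11.const_mul _).sub (i12.const_mul _)).add (i22.const_mul _)
        · exact i00.const_mul _
        · exact (i11.const_mul _).sub (i12.const_mul _)
        · exact i22.const_mul _
        · exact i11.const_mul _
        · exact i12.const_mul _
      have e3 : ∫ z in secF p j ∩ Tri,
          fderiv ℝ (ef i.1.1 i.1.2) z I * fderiv ℝ (ef i.1.1 i.1.2) z 1 =
          ∫ z in secF p j ∩ Tri,
            fderiv ℝ (ef i.1.1 i.1.2) z 1 * fderiv ℝ (ef i.1.1 i.1.2) z I := by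
        congr 1
        funext z
        ring
      rw [e2, e3]
      ring
    rw [e1, hr]
    have hk2 : (DB.kap i)⁻¹ * (DB.kap i)⁻¹ = (Real.sqrt 3 * lam i * (3 / 8))⁻¹ := by
      rw [← mul_inv, DB.kap_sq]
    rw [hk2]
    have hl0 := (DB.lam_pos i).ne'
    have h3 : Real.sqrt 3 ≠ 0 := by positivity
    generalize LL p (fun j => nc p j (d j)) (fun j => nc p j (d (j + 1))) i = L
    generalize ((lam i + s) ^ 3)⁻¹ = c
    field_simp
  rw [← tsum_congr hterm]
  exact key

end

theorem isOpen_FPos {n : ℕ} : IsOpen {q : Fin (n + 3) → ℂ | FPos q} := by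
  have : {q : Fin (n + 3) → ℂ | FPos q} = ⋂ j, {q | 0 < det (q j - oc) (q (j + 1) - oc)} := by
    ext q
    simp [FPos]
  rw [this]
  refine isOpen_iInter_of_finite fun j => ?_
  exact isOpen_lt continuous_const (by unfold det; fun_prop)

/-- FAN -/
theorem fan (hftr : FtrStatement) : FanStatement := by
  intro N p hF
  obtain ⟨M⟩ := model_exists
  obtain ⟨hw, hi, hp, -⟩ := id hF
  have hf := fpos hw hi hp
  refine ⟨{q | FPos q}, isOpen_FPos, hf, fun s q => gF M p s q, ?_, ?_, ?_⟩
  · exact fun s hs => gF_analytic M hw hi hp hs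
  · intro q hq hwq s hs
    exact gF_eq M hw hi hp hq (hftr M N p q hF hwq hq) hs
  · intro s hs d
    have h1 := gF_hasDerivAt M hF hs d
    have h2 : DifferentiableAt ℝ (gF M p s) p :=
      (gF_analytic M hw hi hp hs p hf).differentiableAt
    have h3 : HasDerivAt (fun t : ℝ => p + t • d) d 0 := by
      have := ((hasDerivAt_id (0 : ℝ)).smul_const d).const_add p
      rw [one_smul] at this
      exact this
    have h4 : HasFDerivAt (gF M p s) (fderiv ℝ (gF M p s) p) ((fun t : ℝ => p + t • d) 0) := by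
      simp only [zero_smul, add_zero]
      exact h2.hasFDerivAt
    have h5 := h4.comp_hasDerivAt (0 : ℝ) h3
    exact h5.unique h1

end Pool.Agent.H5O.H55
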