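import Pool.Agent.Helper55_OPEN.Part
import Pool.Agent.Helper1_Gen.SpectralThm

/-!
The operators of the fan: Hilbert-Schmidt property, base point, analyticity.
-/

namespace Pool.Agent.H5O.H55

open MeasureTheory Complex Filter Topology Pool.Agent.H16Iso Pool.Agent.H1Gen
open scoped InnerProductSpace

/-- the mass operator of any measurable set is Hilbert-Schmidt -/
theorem mass_cut_hs (M : Model) (S : Set ℂ) (hS : MeasurableSet S) :
    Summable fun i => ‖(ContinuousLinearMap.adjoint M.D0 ∘L cut S hS ∘L M.D0) (bs i)‖ ^ 2 := by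
  set A := ContinuousLinearMap.adjoint M.D0 ∘L cut S hS ∘L M.D0 with hA
  set w : Idx → ℝ := fun i => ‖M.D0 (bs i)‖ with hw
  have hw2 : ∀ i, w i ^ 2 = (Real.sqrt 3 * lam i)⁻¹ := Op3.norm_D0_bs_sq M
  have hwpos : ∀ i, 0 < w i := by
    intro i
    have h1 : 0 < w i ^ 2 := by
      rw [hw2]; have := Op3.lam_pos i; positivity
    rcases (norm_nonneg (M.D0 (bs i))).eq_or_lt with h | h
    · simp only [hw, ← h] at h1
      norm_num at h1
    · exact h
  set ee : Idx → L2T := fun i => (w i)⁻¹ • M.D0 (bs i) with hee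
  have horth : Orthonormal ℝ ee := by
    rw [orthonormal_iff_ite]
    intro i k
    simp only [hee, real_inner_smul_left, real_inner_smul_right, Op3.inner_D0_bs]
    by_cases hik : i = k
    · subst hik
      rw [if_pos rfl, if_pos rfl, ← hw2]
      have := (hwpos i).ne'
      field_simp
    · rw [if_neg hik, if_neg hik, mul_zero, mul_zero]
  have hD : ∀ i, M.D0 (bs i) = w i • ee i := by
    intro i
    simp only [hee, smul_smul, mul_inv_cancel₀ (hwpos i).ne', one_smul]
  set r : Idx → Idx → ℝ := fun i k => ⟪ee k, cut S hS (ee i)⟫_ℝ ^ 2 with hr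
  have hr0 : ∀ i k, 0 ≤ r i k := fun i k => sq_nonneg _
  have hrs : ∀ i k, r i k = r k i := by
    intro i k
    simp only [hr]
    rw [real_inner_comm, show ⟪cut S hS (ee i), ee k⟫_ℝ = ⟪ee i, cut S hS (ee k)⟫_ℝ from
      Op3.cut_symm _ _ _ _]
  have hr1 : ∀ i, Summable (r i) := by
    intro i
    have := horth.inner_products_summable (cut S hS (ee i))
    simpa only [hr, Real.norm_eq_abs, sq_abs] using this
  have hr2 : ∀ i, ∑' k, r i k ≤ 1 := by
    intro i
    have h1 := horth.tsum_inner_products_le (cut S hS (ee i))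
    simp only [Real.norm_eq_abs, sq_abs] at h1
    refine h1.trans ?_
    have h2 : ‖cut S hS (ee i)‖ ≤ 1 := (Op3.norm_cut_le _ _ _).trans (horth.1 i).le
    exact pow_le_one₀ (norm_nonneg _) h2
  set N : Idx → ℝ := fun i => w i ^ 2 with hN
  have hN0 : ∀ i, 0 ≤ N i := fun i => sq_nonneg _
  have hNs : Summable fun i => N i ^ 2 := by
    have h1 := Op3.summable_lam.mul_left (1 / 3 : ℝ)
    refine h1.congr fun i => ?_
    simp only [hN, hw2]
    rw [mul_inv, mul_pow, inv_pow (Real.sqrt 3), Real.sq_sqrt (by norm_num)]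
    ring
  have hent : ∀ i k, ⟪bs k, A (bs i)⟫_ℝ ^ 2 = N i * N k * r i k := by
    intro i k
    have h1 : ⟪bs k, A (bs i)⟫_ℝ = w i * (w k * ⟪ee k, cut S hS (ee i)⟫_ℝ) := by
      have h2 : A (bs i) = ContinuousLinearMap.adjoint M.D0 (cut S hS (M.D0 (bs i))) := rfl
      rw [h2, ContinuousLinearMap.adjoint_inner_right, hD k, hD i, map_smul,
        real_inner_smul_left, real_inner_smul_right]
      ring
    rw [h1]
    simp only [hN, hr]
    ring
  have hG1 : Summable fun p : Idx × Idx => N p.1 ^ 2 * r p.1 p.2 := by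
    rw [summable_prod_of_nonneg (fun p => mul_nonneg (sq_nonneg _) (hr0 _ _))]
    refine ⟨fun i => (hr1 i).mul_left (N i ^ 2), ?_⟩
    refine Summable.of_nonneg_of_le (fun i => tsum_nonneg fun k =>
      mul_nonneg (sq_nonneg _) (hr0 _ _)) (fun i => ?_) hNs
    simp only
    rw [tsum_mul_left]
    exact mul_le_of_le_one_right (sq_nonneg _) (hr2 i)
  have hG2 : Summable fun p : Idx × Idx => N p.2 ^ 2 * r p.1 p.2 := by
    have := (Equiv.prodComm Idx Idx).summable_iff.mpr hG1
    refine this.congr fun p => ?_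
    simp only [Function.comp_apply, Equiv.prodComm_apply, Prod.fst_swap, Prod.snd_swap]
    rw [hrs]
  have hF : Summable fun p : Idx × Idx => N p.1 * N p.2 * r p.1 p.2 := by
    refine Summable.of_nonneg_of_le (fun p => mul_nonneg (mul_nonneg (hN0 _) (hN0 _)) (hr0 _ _))
      (fun p => ?_) (hG1.add hG2)
    have h1 := hr0 p.1 p.2
    have h2 : N p.1 * N p.2 ≤ N p.1 ^ 2 + N p.2 ^ 2 := by
      nlinarith [sq_nonneg (N p.1 - N p.2), sq_nonneg (N p.1), sq_nonneg (N p.2)]
    rw [← add_mul]
    exact mul_le_mul_of_nonneg_right h2 h1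
  have h3 := ((summable_prod_of_nonneg
    (fun p => mul_nonneg (mul_nonneg (hN0 _) (hN0 _)) (hr0 _ _))).1 hF).2
  refine h3.congr fun i => ?_
  have h4 := bs.hasSum_inner_mul_inner (A (bs i)) (A (bs i))
  rw [real_inner_self_eq_norm_sq] at h4
  refine Eq.trans ?_ h4.tsum_eq
  refine tsum_congr fun k => ?_
  simp only
  rw [← hent, sq, real_inner_comm (bs k) (A (bs i))]

theorem massF_sa (M : Model) (S : Set ℂ) (hS : MeasurableSet S) :
    IsSelfAdjoint (ContinuousLinearMap.adjoint M.D0 ∘L cut S hS ∘L M.D0) := by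
  rw [ContinuousLinearMap.isSelfAdjoint_iff_isSymmetric]
  intro f g
  simp only [ContinuousLinearMap.coe_coe, ContinuousLinearMap.comp_apply,
    ContinuousLinearMap.adjoint_inner_left, ContinuousLinearMap.adjoint_inner_right]
  exact Op3.cut_symm _ _ _ _

section

variable {n : ℕ} {p q : Fin (n + 3) → ℂ}

/-! ### The base point -/

theorem alF_base (hp : FPos p) (j : Fin (n + 3)) : alF p (fun k => p k - oc) j = 1 := by
  have hJ := det_pt_pos hp j
  have h1 := inv_mul_cancel₀ hJ.ne'
  have h3 := s3_pos.ne'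
  have e : ∀ k, p k - oc = ⟨(pt p k).re, Real.sqrt 3 * (pt p k).im⟩ := by
    intro k
    unfold pt ot oc
    apply Complex.ext
    · simp
    · simp only [Complex.sub_im]
      field_simp
  unfold alF
  simp only [e]
  generalize hD : (det (pt p j) (pt p (j + 1)))⁻¹ = D at *
  unfold det at h1
  apply Complex.ext
  · simp only [Complex.sub_re, Complex.smul_re, smul_eq_mul, Complex.one_re]
    linear_combination h1
  · simp only [Complex.sub_im, Complex.smul_im, smul_eq_mul, Complex.one_im]
    ring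

theorem beF_base (hp : FPos p) (j : Fin (n + 3)) :
    beF p (fun k => p k - oc) j = ⟨0, Real.sqrt 3⟩ := by
  have hJ := det_pt_pos hp j
  have h1 := inv_mul_cancel₀ hJ.ne'
  have h3 := s3_pos.ne'
  have e : ∀ k, p k - oc = ⟨(pt p k).re, Real.sqrt 3 * (pt p k).im⟩ := by
    intro k
    unfold pt ot oc
    apply Complex.ext
    · simp
    · simp only [Complex.sub_im]
      field_simp
  unfold beF
  simp only [e]
  generalize hD : (det (pt p j) (pt p (j + 1)))⁻¹ = D at *
  unfold det at h1
  apply Complex.ext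
  · simp only [Complex.sub_re, Complex.smul_re, smul_eq_mul]
    ring
  · simp only [Complex.sub_im, Complex.smul_im, smul_eq_mul]
    linear_combination Real.sqrt 3 * h1

theorem cJF_base (hp : FPos p) (j : Fin (n + 3)) : cJF p p j = Real.sqrt 3 := by
  unfold cJF
  rw [alF_base hp, beF_base hp]
  simp [det]

theorem c1F_base (hp : FPos p) (j : Fin (n + 3)) : c1F p p j = Real.sqrt 3 := by
  unfold c1F
  rw [cJF_base hp, beF_base hp, normSq_apply]
  simp

theorem c2F_base (hp : FPos p) (j : Fin (n + 3)) : c2F p p j = 0 := by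
  unfold c2F
  rw [cJF_base hp, beF_base hp, alF_base hp]
  simp

theorem c3F_base (hp : FPos p) (j : Fin (n + 3)) : c3F p p j = (Real.sqrt 3)⁻¹ := by
  unfold c3F
  rw [cJF_base hp, alF_base hp]
  simp

theorem BopF_base (M : Model) (hw : WC p) (hi : Function.Injective p) (hp : poly p = poly crn) :
    BopF M p p = 1 := by
  have hf := fpos hw hi hp
  ext1 f
  refine ext_inner_right ℝ fun g => ?_
  rw [inner_BopF]
  simp only [c1F_base hf, c2F_base hf, c3F_base hf, zero_mul, add_zero, Finset.sum_add_distrib,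
    ← Finset.mul_sum, sum_inner_cutF hw hi hp]
  rw [one_apply_eq_self, M.inner_eq]

theorem inner_CopF_base (M : Model) (hw : WC p) (hi : Function.Injective p)
    (hp : poly p = poly crn) (f g : H) :
    ⟪CopF M p p f, g⟫_ℝ = Real.sqrt 3 * ⟪M.D0 f, M.D0 g⟫_ℝ := by
  rw [inner_CopF]
  simp only [cJF_base (fpos hw hi hp), ← Finset.mul_sum, sum_inner_cutF hw hi hp]

theorem CopF_base (M : Model) (hw : WC p) (hi : Function.Injective p)
    (hp : poly p = poly crn) (i : Idx) : CopF M p p (bs i) = (lam i)⁻¹ • bs i := by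
  have h : ∀ j, ⟪CopF M p p (bs i), bs j⟫_ℝ = ⟪(lam i)⁻¹ • bs i, bs j⟫_ℝ := by
    intro j
    rw [inner_CopF_base M hw hi hp, Op3.inner_D0_bs, real_inner_smul_left, Op3.bs_inner]
    by_cases hij : i = j
    · rw [if_pos hij, if_pos hij, mul_inv, ← mul_assoc, mul_inv_cancel₀ (by positivity), one_mul,
        mul_one]
    · rw [if_neg hij, if_neg hij, mul_zero, mul_zero]
  refine ext_inner_right ℝ fun g => ?_
  have h2 : (innerSL ℝ (CopF M p p (bs i))) = innerSL ℝ ((lam i)⁻¹ • bs i) := by
    refine ContinuousLinearMap.ext_on (s := Set.range bs) ?_ ?_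
    · rw [dense_iff_closure_eq]
      have := bs.dense_span
      rw [← Submodule.topologicalClosure_coe, this]
      rfl
    · rintro _ ⟨j, rfl⟩
      exact h j
  exact DFunLike.congr_fun h2 g

/-! ### Analyticity -/

theorem analyticAt_re (k : Fin (n + 3)) (q : Fin (n + 3) → ℂ) :
    AnalyticAt ℝ (fun q : Fin (n + 3) → ℂ => (q k - oc).re) q := by
  have h := (reCLM ∘L ContinuousLinearMap.proj (R := ℝ) (φ := fun _ : Fin (n + 3) => ℂ) k).analyticAt q
  exact h.sub analyticAt_const

theorem analyticAt_im (k : Fin (n + 3)) (q : Fin (n + 3) → ℂ) :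
    AnalyticAt ℝ (fun q : Fin (n + 3) → ℂ => (q k - oc).im) q := by
  have h := (imCLM ∘L ContinuousLinearMap.proj (R := ℝ) (φ := fun _ : Fin (n + 3) => ℂ) k).analyticAt q
  exact h.sub analyticAt_const

theorem an_al_re (p : Fin (n + 3) → ℂ) (j : Fin (n + 3)) (q : Fin (n + 3) → ℂ) :
    AnalyticAt ℝ (fun q : Fin (n + 3) → ℂ => (alF p (fun k => q k - oc) j).re) q := by
  unfold alF
  simp only [Complex.smul_re, Complex.sub_re _ (_ • _), smul_eq_mul]
  exact analyticAt_const.mul ((analyticAt_const.mul (analyticAt_re _ q)).sub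
    (analyticAt_const.mul (analyticAt_re _ q)))

theorem an_al_im (p : Fin (n + 3) → ℂ) (j : Fin (n + 3)) (q : Fin (n + 3) → ℂ) :
    AnalyticAt ℝ (fun q : Fin (n + 3) → ℂ => (alF p (fun k => q k - oc) j).im) q := by
  unfold alF
  simp only [Complex.smul_im, Complex.sub_im _ (_ • _), smul_eq_mul]
  exact analyticAt_const.mul ((analyticAt_const.mul (analyticAt_im _ q)).sub
    (analyticAt_const.mul (analyticAt_im _ q)))

theorem an_be_re (p : Fin (n + 3) → ℂ) (j : Fin (n + 3)) (q : Fin (n + 3) → ℂ) :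
    AnalyticAt ℝ (fun q : Fin (n + 3) → ℂ => (beF p (fun k => q k - oc) j).re) q := by
  unfold beF
  simp only [Complex.smul_re, Complex.sub_re _ (_ • _), smul_eq_mul]
  exact analyticAt_const.mul ((analyticAt_const.mul (analyticAt_re _ q)).sub
    (analyticAt_const.mul (analyticAt_re _ q)))

theorem an_be_im (p : Fin (n + 3) → ℂ) (j : Fin (n + 3)) (q : Fin (n + 3) → ℂ) :
    AnalyticAt ℝ (fun q : Fin (n + 3) → ℂ => (beF p (fun k => q k - oc) j).im) q := by
  unfold beF
  simp only [Complex.smul_im, Complex.sub_im _ (_ • _), smul_eq_mul]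
  exact analyticAt_const.mul ((analyticAt_const.mul (analyticAt_im _ q)).sub
    (analyticAt_const.mul (analyticAt_im _ q)))

theorem an_cJF (p : Fin (n + 3) → ℂ) (j : Fin (n + 3)) (q : Fin (n + 3) → ℂ) :
    AnalyticAt ℝ (fun q : Fin (n + 3) → ℂ => cJF p q j) q := by
  unfold cJF det
  exact ((an_al_re p j q).mul (an_be_im p j q)).sub ((an_al_im p j q).mul (an_be_re p j q))

theorem an_c1F (hp : FPos p) (j : Fin (n + 3)) (hq : FPos q) :
    AnalyticAt ℝ (fun q : Fin (n + 3) → ℂ => c1F p q j) q := by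
  unfold c1F
  simp only [normSq_apply]
  exact (((an_be_re p j q).mul (an_be_re p j q)).add
    ((an_be_im p j q).mul (an_be_im p j q))).div (an_cJF p j q) (cJF_pos hp hq j).ne'

theorem an_c2F (hp : FPos p) (j : Fin (n + 3)) (hq : FPos q) :
    AnalyticAt ℝ (fun q : Fin (n + 3) → ℂ => c2F p q j) q := by
  unfold c2F
  exact (((an_al_re p j q).mul (an_be_re p j q)).add
    ((an_al_im p j q).mul (an_be_im p j q))).neg.div (an_cJF p j q) (cJF_pos hp hq j).ne'

theorem an_c3F (hp : FPos p) (j : Fin (n + 3)) (hq : FPos q) :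
    AnalyticAt ℝ (fun q : Fin (n + 3) → ℂ => c3F p q j) q := by
  unfold c3F
  simp only [normSq_apply]
  exact (((an_al_re p j q).mul (an_al_re p j q)).add
    ((an_al_im p j q).mul (an_al_im p j q))).div (an_cJF p j q) (cJF_pos hp hq j).ne'

theorem an_BopF (M : Model) (hp : FPos p) (hq : FPos q) :
    AnalyticAt ℝ (fun q : Fin (n + 3) → ℂ => BopF M p q) q := by
  unfold BopF
  refine Finset.analyticAt_fun_sum _ fun j _ => ?_
  exact (((an_c1F hp j hq).smul analyticAt_const).add
    ((an_c2F hp j hq).smul analyticAt_const)).add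
    ((an_c3F hp j hq).smul analyticAt_const)

/-- the trace functional -/
noncomputable def gF (M : Model) (p : Fin (n + 3) → ℂ) (s : ℝ) (q : Fin (n + 3) → ℂ) : ℝ :=
  gtr bs (BopF M p q) (CopF M p q) s

theorem gF_analytic (M : Model) (hw : WC p) (hi : Function.Injective p)
    (hp : poly p = poly crn) {s : ℝ} (hs : 0 ≤ s) : AnalyticOnNhd ℝ (gF M p s) {q | FPos q} := by
  intro q hq
  have hf := fpos hw hi hp
  have h1 := gtr_analyticAt (ν := Fin (n + 3)) bs (B := fun q => BopF M p q)
    (d := fun j q => cJF p q j)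
    (M := fun j => ContinuousLinearMap.adjoint M.D0 ∘L cutF p j ∘L M.D0)
    (fun j => mass_cut_hs M _ _) (fun j => massF_sa M _ _) (fun q => BopF_selfAdjoint M p q)
    (s := s) (e := q) (an_BopF M hf hq) (fun j => an_cJF p j q) ?_
  · exact h1
  · obtain ⟨c, hc, h2⟩ := BopF_coercive M hw hi hp hq
    refine Op3.isUnit_of_coercive _ hc fun f => ?_
    have h3 : 0 ≤ ⟪CopF M p q f, f⟫_ℝ := by
      by_cases hf : f = 0
      · rw [hf]; simp
      · exact (CopF_pos M hw hi hp hq f hf).le
    have h4 : ⟪(BopF M p q + s • CopF M p q) f, f⟫_ℝ =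
        ⟪BopF M p q f, f⟫_ℝ + s * ⟪CopF M p q f, f⟫_ℝ := by
      simp only [add_apply, smul_apply, inner_add_left, real_inner_smul_left]
    change _ ≤ ⟪(BopF M p q + s • CopF M p q) f, f⟫_ℝ
    rw [h4]
    have := h2 f
    have := mul_nonneg hs h3
    linarith

/-! ### The eigenvalues -/

theorem poly_nonempty_of_fpos (hq : FPos q) : (poly q).Nonempty := by
  unfold poly
  rw [interior_convexHull_nonempty_iff_affineSpan_eq_top]
  rw [AffineSubspace.affineSpan_eq_top_iff_vectorSpan_eq_top_of_nonempty _ _ _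
    (Set.range_nonempty q)]
  -- two differences are linearly independent
  have key : ∃ j k : Fin (n + 3), det (q j - q 0) (q k - q 0) ≠ 0 := by
    by_contra hcon
    push Not at hcon
    have h01 : q 1 - q 0 ≠ 0 := by
      intro h
      have := hq 0
      rw [zero_add, sub_eq_zero.1 h, det_self] at this
      exact lt_irrefl _ this
    -- every vertex is on the line through `q 0` and `q 1`
    set u := q 1 - q 0 with hu
    have hτ : ∀ j, ∃ τ : ℝ, q j = q 0 + τ • u := by
      intro j
      have h := hcon 1 j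
      have hu2 : 0 < normSq u := normSq_pos.2 h01
      have hI := inv_mul_cancel₀ hu2.ne'
      refine ⟨((q j - q 0).re * u.re + (q j - q 0).im * u.im) * (normSq u)⁻¹, ?_⟩
      rw [← hu] at h
      generalize (normSq u)⁻¹ = D at *
      rw [normSq_apply] at hI
      unfold det at h
      apply Complex.ext
      · simp only [Complex.add_re, Complex.smul_re, Complex.sub_re, Complex.sub_im,
          smul_eq_mul] at h ⊢
        linear_combination (-((q j).re - (q 0).re)) * hI - D * u.im * h
      · simp only [Complex.add_im, Complex.smul_im, Complex.sub_re, Complex.sub_im,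
          smul_eq_mul] at h ⊢
        linear_combination (-((q j).im - (q 0).im)) * hI + D * u.re * h
    choose τ hτ using hτ
    have h3 : ∀ j, det (q j - oc) (q (j + 1) - oc)
        = τ (j + 1) * det (q 0 - oc) u - τ j * det (q 0 - oc) u := by
      intro j
      rw [hτ j, hτ (j + 1)]
      unfold det
      simp only [Complex.sub_re, Complex.sub_im, Complex.add_re, Complex.add_im, Complex.smul_re,
        Complex.smul_im, smul_eq_mul]
      ring
    have h4 : ∑ j, det (q j - oc) (q (j + 1) - oc) = 0 := by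
      simp only [h3]
      have h5 : ∑ j, τ (j + 1) * det (q 0 - oc) u = ∑ j, τ j * det (q 0 - oc) u :=
        Equiv.sum_comp (Equiv.addRight (1 : Fin (n + 3))) (fun j => τ j * det (q 0 - oc) u)
      rw [Finset.sum_sub_distrib, h5, sub_self]
    have h5 : 0 < ∑ j, det (q j - oc) (q (j + 1) - oc) :=
      Finset.sum_pos (fun j _ => hq j) Finset.univ_nonempty
    linarith
  obtain ⟨j, k, hD'⟩ := key
  rw [eq_top_iff]
  intro z _
  set a : ℂ := q j - q 0 with ha
  set b : ℂ := q k - q 0 with hb
  have hav : a ∈ vectorSpan ℝ (Set.range q) := vsub_mem_vectorSpan ℝ ⟨j, rfl⟩ ⟨0, rfl⟩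
  have hbv : b ∈ vectorSpan ℝ (Set.range q) := vsub_mem_vectorSpan ℝ ⟨k, rfl⟩ ⟨0, rfl⟩
  rw [cramer hD' z]
  exact add_mem (Submodule.smul_mem _ _ hav) (Submodule.smul_mem _ _ hbv)

theorem gF_eq (M : Model) (hw : WC p) (hi : Function.Injective p)
    (hp : poly p = poly crn) (hq : FPos q)
    (htr : ∀ (t : ℝ) (k : ℕ),
      Neg (B t) (LZ (poly q)) k ↔ Neg (qf (BopF M p q) (CopF M p q) t) ⊤ k)
    {s : ℝ} (hs : 0 ≤ s) : gF M p s q = specSum (poly q) s := by
  obtain ⟨c, hc, hBc⟩ := BopF_coercive M hw hi hp hq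
  have hS : Summable fun i => ‖CopF M p q (bs i)‖ ^ 2 := by
    have := summable_sum_sq
      (fun j i => (ContinuousLinearMap.adjoint M.D0 ∘L cutF p j ∘L M.D0) (bs i))
      (fun j => cJF p q j) (fun j => mass_cut_hs M _ _)
    refine this.congr fun i => ?_
    unfold CopF
    rw [_root_.sum_apply]
    rfl
  obtain ⟨d, h1, h2, h3, h4, h5, h6⟩ := spectral bs (BopF_selfAdjoint M p q)
    (CopF_selfAdjoint M p q) hc hBc (CopF_pos M hw hi hp hq) hS
  have hd : dirEig (poly q) = d := by
    funext k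
    refine dirEig_eq isOpen_interior (convex_convexHull ℝ _).interior
      (poly_nonempty_of_fpos hq) ?_ ?_
    · exact fun h => h4 k ((htr _ _).1 h)
    · intro t ht
      exact (htr _ _).2 (h5 k t ht)
  unfold specSum
  rw [hd]
  exact (h6 s hs).tsum_eq.symm

end

end Pool.Agent.H5O.H55
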