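import Pool.Agent.Helper55_OPEN.Geo
import Pool.Agent.Helper1_Gen.Transfer
import Pool.Agent.Helper1_Gen.SpecSumOf

/-!
The reference triangle with flat vertices: edges, positivity, partition of the triangle into
sectors.
-/

namespace Pool.Agent.H5O.H55

open MeasureTheory Complex Filter Topology Pool.Agent.H16Iso Pool.Agent.H1Gen

theorem s3_pos : (0 : ℝ) < Real.sqrt 3 := by positivity

theorem s3_sq : Real.sqrt 3 * Real.sqrt 3 = 3 := Real.mul_self_sqrt (by norm_num)

theorem crn0 : crn 0 = 0 := rfl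
theorem crn1 : crn 1 = 1 := rfl
theorem crn2 : crn 2 = ⟨1, Real.sqrt 3⟩ := rfl

theorem crn_ccw : CCW crn := by
  intro i j k hij hjk
  have h0 : i = 0 ∧ j = 1 ∧ k = 2 := by
    refine ⟨?_, ?_, ?_⟩ <;> (apply Fin.ext; rw [Fin.lt_def] at hij hjk; omega)
  obtain ⟨rfl, rfl, rfl⟩ := h0
  rw [crn0, crn1, crn2]
  unfold det
  simp

/-- barycentric coordinates in the physical plane -/
noncomputable def bp : Fin 3 → ℂ → ℝ :=
  ![fun z => 1 - z.re, fun z => z.re - z.im / Real.sqrt 3, fun z => z.im / Real.sqrt 3]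

theorem bp0 (z : ℂ) : bp 0 z = 1 - z.re := rfl
theorem bp1 (z : ℂ) : bp 1 z = z.re - z.im / Real.sqrt 3 := rfl
theorem bp2 (z : ℂ) : bp 2 z = z.im / Real.sqrt 3 := rfl

/-- an affine function in barycentric coordinates -/
theorem det_bp (u v z : ℂ) : det u (z - v) = ∑ i, bp i z * det u (crn i - v) := by
  have h3 := s3_pos.ne'
  rw [Fin.sum_univ_three, bp0, bp1, bp2, crn0, crn1, crn2]
  unfold det
  simp only [Complex.sub_re, Complex.sub_im, Complex.zero_re, Complex.zero_im, Complex.one_re,
    Complex.one_im]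
  field_simp
  ring

theorem convex_half (u v : ℂ) : Convex ℝ {z : ℂ | 0 ≤ det u (z - v)} := by
  have h : {z : ℂ | 0 ≤ det u (z - v)} = {z : ℂ | det u v ≤ detL u z} := by
    ext z
    simp only [Set.mem_ofPred_eq, detL_apply, det_sub_right, sub_nonneg]
  rw [h]
  exact convex_halfSpace_ge (detL u).isLinear _

section FlatSec

variable {n : ℕ} {p : Fin (n + 3) → ℂ}

theorem hull_eq (hp : poly p = poly crn) :
    convexHull ℝ (Set.range p) = convexHull ℝ (Set.range crn) := by
  have h1 : (interior (convexHull ℝ (Set.range crn))).Nonempty := poly_nonempty (m := 0) crn_ccw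
  have h2 : (interior (convexHull ℝ (Set.range p))).Nonempty := by
    have : interior (convexHull ℝ (Set.range p)) = interior (convexHull ℝ (Set.range crn)) := hp
    rw [this]
    exact h1
  have e1 := (convex_convexHull ℝ (Set.range p)).closure_interior_eq_closure_of_nonempty_interior h2
  have e2 := (convex_convexHull ℝ (Set.range crn)).closure_interior_eq_closure_of_nonempty_interior h1
  have c1 : IsClosed (convexHull ℝ (Set.range p)) := (Set.finite_range p).isClosed_convexHull ℝ
  have c2 : IsClosed (convexHull ℝ (Set.range crn)) := (Set.finite_range crn).isClosed_convexHull ℝ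
  rw [c1.closure_eq] at e1
  rw [c2.closure_eq] at e2
  rw [← e1, ← e2]
  exact congrArg closure hp

theorem half_crn (hp : poly p = poly crn) {u v : ℂ} (h : ∀ k, 0 ≤ det u (p k - v)) (i : Fin 3) :
    0 ≤ det u (crn i - v) := by
  have h1 : convexHull ℝ (Set.range p) ⊆ {z : ℂ | 0 ≤ det u (z - v)} :=
    convexHull_min (by rintro _ ⟨k, rfl⟩; exact h k) (convex_half u v)
  rw [hull_eq hp] at h1
  exact h1 (subset_convexHull ℝ _ ⟨i, rfl⟩)

theorem bp_nonneg (hp : poly p = poly crn) (k : Fin (n + 3)) (i : Fin 3) : 0 ≤ bp i (p k) := by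
  have h3 := s3_pos
  have h1 : p k ∈ convexHull ℝ (Set.range crn) := by
    rw [← hull_eq hp]
    exact subset_convexHull ℝ _ ⟨k, rfl⟩
  have conv : Convex ℝ {z : ℂ | 0 ≤ bp i z} := by
    have hz : ∀ a b : ℝ, a + b = 1 → ∀ z w : ℂ, bp i (a • z + b • w) = a * bp i z + b * bp i w := by
      intro a b hab z w
      have ha : a = 1 - b := by linarith
      subst ha
      fin_cases i
      · show 1 - ((1 - b) • z + b • w).re = (1 - b) * (1 - z.re) + b * (1 - w.re)
        simp only [Complex.add_re, Complex.smul_re, smul_eq_mul]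
        ring
      · show ((1 - b) • z + b • w).re - ((1 - b) • z + b • w).im / Real.sqrt 3
          = (1 - b) * (z.re - z.im / Real.sqrt 3) + b * (w.re - w.im / Real.sqrt 3)
        simp only [Complex.add_re, Complex.smul_re, smul_eq_mul, Complex.add_im, Complex.smul_im]
        ring
      · show ((1 - b) • z + b • w).im / Real.sqrt 3
          = (1 - b) * (z.im / Real.sqrt 3) + b * (w.im / Real.sqrt 3)
        simp only [smul_eq_mul, Complex.add_im, Complex.smul_im]
        ring
    intro z hz' w hw' a b ha hb hab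
    simp only [Set.mem_ofPred_eq] at hz' hw' ⊢
    rw [hz a b hab]
    positivity
  have h2 : convexHull ℝ (Set.range crn) ⊆ {z : ℂ | 0 ≤ bp i z} := by
    refine convexHull_min ?_ conv
    rintro _ ⟨k, rfl⟩
    show 0 ≤ bp i (crn k)
    fin_cases k <;> fin_cases i
    · show 0 ≤ bp 0 (crn 0)
      rw [bp0, crn0]; simp
    · show 0 ≤ bp 1 (crn 0)
      rw [bp1, crn0]; simp
    · show 0 ≤ bp 2 (crn 0)
      rw [bp2, crn0]; simp
    · show 0 ≤ bp 0 (crn 1)
      rw [bp0, crn1]; simp
    · show 0 ≤ bp 1 (crn 1)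
      rw [bp1, crn1]; simp
    · show 0 ≤ bp 2 (crn 1)
      rw [bp2, crn1]; simp
    · show 0 ≤ bp 0 (crn 2)
      rw [bp0, crn2]; simp
    · show 0 ≤ bp 1 (crn 2)
      rw [bp1, crn2]
      simp
    · show 0 ≤ bp 2 (crn 2)
      rw [bp2, crn2]
      simp
  exact h2 h1

theorem off_line (hp : poly p = poly crn) (u : ℂ) (hu : u ≠ 0) (v : ℂ) :
    ∃ k, det u (p k - v) ≠ 0 := by
  by_contra hcon
  push Not at hcon
  have h1 : ∀ i, det u (crn i - v) = 0 := by
    intro i
    apply le_antisymm
    · have := half_crn hp (u := -u) (v := v) (fun k => by rw [det_neg_left, hcon k]; simp) i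
      rw [det_neg_left] at this
      linarith
    · exact half_crn hp (fun k => (hcon k).ge) i
  have h3 := s3_pos
  have a0 := h1 0
  have a1 := h1 1
  have a2 := h1 2
  rw [crn0] at a0
  rw [crn1] at a1
  rw [crn2] at a2
  unfold det at a0 a1 a2
  simp only [Complex.sub_re, Complex.sub_im, Complex.zero_re, Complex.zero_im, Complex.one_re,
    Complex.one_im] at a0 a1 a2
  have hi : u.im = 0 := by linarith
  have hr : u.re * Real.sqrt 3 = 0 := by linarith
  have hr' : u.re = 0 := (mul_eq_zero.1 hr).resolve_right h3.ne'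
  exact hu (Complex.ext hr' hi)

theorem oc_avg (u v : ℂ) : 3 * det u (oc - v) = ∑ i, det u (crn i - v) := by
  rw [Fin.sum_univ_three, crn0, crn1, crn2]
  unfold det oc
  simp only [Complex.sub_re, Complex.sub_im, Complex.zero_re, Complex.zero_im, Complex.one_re,
    Complex.one_im]
  ring

theorem next_ne {n : ℕ} (j : Fin (n + 3)) : j + 1 ≠ j := by
  intro h
  have h1 : (1 : Fin (n + 3)) = 0 := by
    have := congrArg (fun x => x - j) h
    simp at this
  exact absurd h1 (by simp)

theorem fpos (hw : WC p) (hi : Function.Injective p) (hp : poly p = poly crn) : FPos p := by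
  intro j
  have h1 : ∀ i, 0 ≤ det (p (j + 1) - p j) (crn i - p j) :=
    half_crn hp (fun k => edge_nonneg hw j k)
  rw [det_sub_eq_ori]
  have h2 := oc_avg (p (j + 1) - p j) (p j)
  have h3 : 0 ≤ ∑ i, det (p (j + 1) - p j) (crn i - p j) := Finset.sum_nonneg fun i _ => h1 i
  have h4 : 0 ≤ ori (p j) (p (j + 1)) oc := by
    show 0 ≤ det (p (j + 1) - p j) (oc - p j)
    linarith
  rcases h4.lt_or_eq with h | h
  · exact h
  · exfalso
    have h5 : ∑ i, det (p (j + 1) - p j) (crn i - p j) = 0 := by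
      rw [← h2]
      have : det (p (j + 1) - p j) (oc - p j) = 0 := h.symm
      rw [this, mul_zero]
    rw [Finset.sum_eq_zero_iff_of_nonneg (fun i _ => h1 i)] at h5
    have hne : p (j + 1) - p j ≠ 0 := sub_ne_zero.2 (fun h => next_ne j (hi h))
    obtain ⟨k, hk⟩ := off_line hp _ hne (p j)
    apply hk
    rw [det_bp]
    exact Finset.sum_eq_zero fun i hi => by rw [h5 i hi, mul_zero]

/-- the two ends of an edge are on the same side of the triangle -/
theorem same_side (hw : WC p) (hi : Function.Injective p) (hp : poly p = poly crn)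
    (j : Fin (n + 3)) : ∃ i, bp i (p j) = 0 ∧ bp i (p (j + 1)) = 0 := by
  have h1 : ∀ i, 0 ≤ det (p (j + 1) - p j) (crn i - p j) :=
    half_crn hp (fun k => edge_nonneg hw j k)
  have h2 := oc_avg (p (j + 1) - p j) (p j)
  have h3 := fpos hw hi hp j
  rw [det_sub_eq_ori] at h3
  have h3' : 0 < det (p (j + 1) - p j) (oc - p j) := h3
  have h4 : ∃ i, 0 < det (p (j + 1) - p j) (crn i - p j) := by
    by_contra hcon
    push Not at hcon
    have : ∑ i, det (p (j + 1) - p j) (crn i - p j) ≤ 0 := Finset.sum_nonpos fun i _ => hcon i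
    linarith
  obtain ⟨i, hi'⟩ := h4
  refine ⟨i, ?_, ?_⟩
  · have h5 := det_bp (p (j + 1) - p j) (p j) (p j)
    rw [sub_self, det_zero_right] at h5
    have h6 := (Finset.sum_eq_zero_iff_of_nonneg
      (fun i _ => mul_nonneg (bp_nonneg hp j i) (h1 i))).1 h5.symm i (Finset.mem_univ _)
    exact (mul_eq_zero.1 h6).resolve_right hi'.ne'
  · have h5 := det_bp (p (j + 1) - p j) (p j) (p (j + 1))
    rw [det_self] at h5
    have h6 := (Finset.sum_eq_zero_iff_of_nonneg
      (fun i _ => mul_nonneg (bp_nonneg hp (j + 1) i) (h1 i))).1 h5.symm i (Finset.mem_univ _)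
    exact (mul_eq_zero.1 h6).resolve_right hi'.ne'

/-! ### sign changes -/

theorem exists_trans {g : Fin (n + 3) → ℝ} (hg : ∀ k, g k ≠ 0) (h1 : ∃ k, g k < 0)
    (h2 : ∃ k, 0 < g k) : ∃ j, g j < 0 ∧ 0 < g (j + 1) := by
  by_contra hcon
  push Not at hcon
  obtain ⟨k, hk⟩ := h1
  obtain ⟨l, hl⟩ := h2
  have h3 : ∀ x : Fin (n + 3), g (k + x) < 0 := by
    intro x
    induction x using Fin.induction with
    | zero => simpa using hk
    | succ i ih =>
      have := hcon _ ih
      rw [← Fin.coeSucc_eq_succ, ← add_assoc]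
      exact lt_of_le_of_ne this (hg _)
  have h4 := h3 (l - k)
  rw [add_sub_cancel] at h4
  linarith

theorem unique_trans (hw : WC p) (hne : ∀ u : ℂ, u ≠ 0 → ∀ v : ℂ, ∃ k, det u (p k - v) ≠ 0)
    (u v : ℂ) {j l : Fin (n + 3)} (hj : det u (p j - v) < 0) (hj' : 0 < det u (p (j + 1) - v))
    (hl : det u (p l - v) < 0) (hl' : 0 < det u (p (l + 1) - v)) : j = l := by
  have main : ∀ {j l : Fin (n + 3)}, det u (p j - v) < 0 → 0 < det u (p (j + 1) - v) →
      det u (p l - v) < 0 → 0 < det u (p (l + 1) - v) → j < l → False := by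
    intro j l hj hj' hl hl' hjl
    have hjlast : j < Fin.last (n + 2) := lt_of_lt_of_le hjl (Fin.le_last l)
    have h1 : j < j + 1 := Fin.lt_add_one_iff.2 hjlast
    have h2 : j + 1 ≤ l := Fin.add_one_le_of_lt hjl
    have h3 : j + 1 < l := by
      refine lt_of_le_of_ne h2 ?_
      intro h
      rw [h] at hj'
      linarith
    rcases eq_or_ne l (Fin.last (n + 2)) with hL | hL
    · have e : l + 1 = 0 := by rw [hL]; exact Fin.last_add_one _
      rw [e] at hl'
      have h0 : 0 < j := by
        apply Fin.pos_of_ne_zero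
        intro h
        rw [h] at hj
        linarith
      exact no_alt hw hne u v h0 h1 h3 hl' hj hj' hl
    · have h4 : l < l + 1 := Fin.lt_add_one_iff.2 (Fin.lt_last_iff_ne_last.2 hL)
      refine no_alt hw hne (-u) v h1 h3 h4 ?_ ?_ ?_ ?_ <;> rw [det_neg_left] <;> linarith
  rcases lt_trichotomy j l with h | h | h
  · exact (main hj hj' hl hl' h).elim
  · exact h
  · exact (main hl hl' hj hj' h).elim

end FlatSec

end Pool.Agent.H5O.H55
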