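import Pool.Agent.Helper5_OPEN.DefsF
import Pool.Agent.Helper1_Gen.PolyGeom

/-!
Geometry of the reference triangle with flat vertices: edges, sectors, partition of the triangle.
-/

namespace Pool.Agent.H5O.H55

open MeasureTheory Complex Filter Topology Pool.Agent.H16Iso Pool.Agent.H1Gen

/-! ### Orientation of three points -/

/-- twice the signed area of the triangle `a b c` -/
def ori (a b c : ℂ) : ℝ := det (b - a) (c - a)

theorem ori_cyc (a b c : ℂ) : ori a b c = ori b c a := by
  unfold ori det
  simp only [Complex.sub_re, Complex.sub_im]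
  ring

theorem ori_swap (a b c : ℂ) : ori a b c = - ori b a c := by
  unfold ori det
  simp only [Complex.sub_re, Complex.sub_im]
  ring

theorem ori_self1 (a b : ℂ) : ori a b a = 0 := by
  unfold ori det
  simp

theorem ori_self2 (a b : ℂ) : ori a b b = 0 := by
  unfold ori det
  ring

theorem det_sub_eq_ori (a b c : ℂ) : det (a - c) (b - c) = ori a b c := by
  unfold ori det
  simp only [Complex.sub_re, Complex.sub_im]
  ring

/-- the four point identity for an affine function -/
theorem four_point (a b c d u v : ℂ) :
    ori b c d * det u (a - v) - ori a c d * det u (b - v) + ori a b d * det u (c - v)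
      - ori a b c * det u (d - v) = 0 := by
  unfold ori det
  simp only [Complex.sub_re, Complex.sub_im]
  ring

section WCsec

variable {n : ℕ} {p : Fin (n + 3) → ℂ}

/-- all the vertices are on the left of the edges -/
theorem edge_nonneg (hp : WC p) (j k : Fin (n + 3)) : 0 ≤ ori (p j) (p (j + 1)) (p k) := by
  rcases eq_or_ne j (Fin.last (n + 2)) with hj | hj
  · have hj1 : j + 1 = 0 := by rw [hj]; exact Fin.last_add_one _
    rw [hj1]
    rcases eq_or_ne k 0 with hk | hk
    · rw [hk, ori_self2]
    rcases eq_or_ne k j with hkj | hkj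
    · rw [hkj, ori_self1]
    have h1 : (0 : Fin (n + 3)) < k := Fin.pos_of_ne_zero hk
    have h2 : k < j := by
      rw [hj] at hkj ⊢
      exact Fin.lt_last_iff_ne_last.2 hkj
    have := hp 0 k j h1 h2
    rw [ori_cyc]
    exact this
  · have hlt : j < j + 1 := by
      have := Fin.lt_last_iff_ne_last.2 hj
      exact Fin.lt_add_one_iff.2 this
    rcases lt_trichotomy k j with h | h | h
    · have := hp k j (j + 1) h hlt
      rw [ori_cyc, ori_cyc]
      exact this
    · rw [h, ori_self1]
    · rcases eq_or_ne k (j + 1) with h' | h'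
      · rw [h', ori_self2]
      · have h2 : j + 1 < k := lt_of_le_of_ne (Fin.add_one_le_of_lt h) (Ne.symm h')
        exact hp j (j + 1) k hlt h2

/-- four vertices in weakly convex position do not alternate -/
theorem no_alt (hp : WC p) (hne : ∀ u : ℂ, u ≠ 0 → ∀ v : ℂ, ∃ k, det u (p k - v) ≠ 0) (u v : ℂ)
    {a b c d : Fin (n + 3)} (hab : a < b) (hbc : b < c) (hcd : c < d)
    (ha : 0 < det u (p a - v)) (hb : det u (p b - v) < 0) (hc : 0 < det u (p c - v))
    (hd : det u (p d - v) < 0) : False := by
  have o1 : 0 ≤ ori (p b) (p c) (p d) := hp b c d hbc hcd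
  have o2 : 0 ≤ ori (p a) (p c) (p d) := hp a c d (hab.trans hbc) hcd
  have o3 : 0 ≤ ori (p a) (p b) (p d) := hp a b d hab (hbc.trans hcd)
  have o4 : 0 ≤ ori (p a) (p b) (p c) := hp a b c hab hbc
  have h4 := four_point (p a) (p b) (p c) (p d) u v
  have m1 := mul_nonneg o1 ha.le
  have m2 := mul_nonneg o2 (neg_nonneg.2 hb.le)
  have m3 := mul_nonneg o3 hc.le
  have m4 := mul_nonneg o4 (neg_nonneg.2 hd.le)
  have z1 : ori (p b) (p c) (p d) = 0 := by
    have : ori (p b) (p c) (p d) * det u (p a - v) = 0 := by linarith
    rcases mul_eq_zero.1 this with h | h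
    · exact h
    · exact absurd h ha.ne'
  have z4 : ori (p a) (p b) (p c) = 0 := by
    have : ori (p a) (p b) (p c) * det u (p d - v) = 0 := by linarith
    rcases mul_eq_zero.1 this with h | h
    · exact h
    · exact absurd h hd.ne
  have z2 : ori (p a) (p c) (p d) = 0 := by
    have : ori (p a) (p c) (p d) * det u (p b - v) = 0 := by linarith
    rcases mul_eq_zero.1 this with h | h
    · exact h
    · exact absurd h hb.ne
  have z3 : ori (p a) (p b) (p d) = 0 := by
    have : ori (p a) (p b) (p d) * det u (p c - v) = 0 := by linarith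
    rcases mul_eq_zero.1 this with h | h
    · exact h
    · exact absurd h hc.ne'
  -- a vertex off the line
  have hba : p b - p a ≠ 0 := by
    intro h
    rw [sub_eq_zero.1 h] at hb
    linarith
  obtain ⟨e, he⟩ := hne (p b - p a) hba (p a)
  have he' : ori (p a) (p b) (p e) ≠ 0 := he
  -- generic contradiction: x y z collinear, e off the line, signs alternate
  have key : ∀ x y z : Fin (n + 3), ori (p x) (p y) (p z) = 0 →
      0 ≤ ori (p e) (p x) (p y) → 0 ≤ ori (p e) (p y) (p z) →
      0 < det u (p x - v) * det u (p z - v) → det u (p x - v) * det u (p y - v) < 0 →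
      ori (p e) (p x) (p y) = 0 := by
    intro x y z hz h1 h2 h3 h4
    have i1 := four_point (p e) (p x) (p y) (p z) u v
    have i2 : ori (p x) (p y) (p z) - ori (p e) (p y) (p z) + ori (p e) (p x) (p z)
        - ori (p e) (p x) (p y) = 0 := by
      unfold ori det
      simp only [Complex.sub_re, Complex.sub_im]
      ring
    rw [hz] at i1 i2
    set X := det u (p x - v)
    set Y := det u (p y - v)
    set Z := det u (p z - v)
    have i3 : ori (p e) (p x) (p z) = ori (p e) (p y) (p z) + ori (p e) (p x) (p y) := by
      linarith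
    rw [i3] at i1
    -- `(A + B) Y = A X + B Z`
    have i4 : (ori (p e) (p y) (p z) + ori (p e) (p x) (p y)) * (X * Y)
        = ori (p e) (p y) (p z) * (X * X) + ori (p e) (p x) (p y) * (X * Z) := by
      linear_combination X * i1
    have i5 : (ori (p e) (p y) (p z) + ori (p e) (p x) (p y)) * (X * Y) ≤ 0 :=
      mul_nonpos_of_nonneg_of_nonpos (add_nonneg h2 h1) h4.le
    have i6 : 0 ≤ ori (p e) (p y) (p z) * (X * X) := mul_nonneg h2 (mul_self_nonneg _)
    have i7 : 0 ≤ ori (p e) (p x) (p y) * (X * Z) := mul_nonneg h1 h3.le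
    have i8 : ori (p e) (p x) (p y) * (X * Z) = 0 := by linarith
    rcases mul_eq_zero.1 i8 with h | h
    · exact h
    · exact absurd h h3.ne'
  have hAC : 0 < det u (p a - v) * det u (p c - v) := mul_pos ha hc
  have hBD : 0 < det u (p b - v) * det u (p d - v) := mul_pos_of_neg_of_neg hb hd
  have hAB : det u (p a - v) * det u (p b - v) < 0 := mul_neg_of_pos_of_neg ha hb
  have hBC : det u (p b - v) * det u (p c - v) < 0 := mul_neg_of_neg_of_pos hb hc
  have hCD : det u (p c - v) * det u (p d - v) < 0 := mul_neg_of_pos_of_neg hc hd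
  have hDA : det u (p d - v) * det u (p a - v) < 0 := mul_neg_of_neg_of_pos hd ha
  have ne_of : ∀ x y : Fin (n + 3), det u (p x - v) * det u (p y - v) < 0 → p y - p x ≠ 0 := by
    intro x y h h0
    rw [sub_eq_zero.1 h0] at h
    nlinarith [mul_self_nonneg (det u (p x - v))]
  -- if `e` is on the line `x y` with `x, y` among the four points, then it is on the line `a b`
  have fin : ∀ x y : Fin (n + 3), ori (p a) (p b) (p x) = 0 → ori (p a) (p b) (p y) = 0 →
      p y - p x ≠ 0 → ori (p e) (p x) (p y) = 0 → False := by
    intro x y hx hy hxy h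
    apply he'
    unfold ori det at *
    simp only [Complex.sub_re, Complex.sub_im] at *
    have hxy' : (p y).re - (p x).re ≠ 0 ∨ (p y).im - (p x).im ≠ 0 := by
      by_contra hcon
      push Not at hcon
      apply hxy
      apply Complex.ext
      · simpa using hcon.1
      · simpa using hcon.2
    rcases hxy' with h' | h'
    · have := mul_left_cancel₀ h' (a := (p y).re - (p x).re)
        (b := ((p b).re - (p a).re) * ((p e).im - (p a).im)
          - ((p b).im - (p a).im) * ((p e).re - (p a).re)) (c := 0) (by
          rw [mul_zero]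
          linear_combination ((p b).re - (p a).re) * h + ((p y).re - (p e).re) * hx
            + ((p e).re - (p x).re) * hy)
      exact this
    · have := mul_left_cancel₀ h' (a := (p y).im - (p x).im)
        (b := ((p b).re - (p a).re) * ((p e).im - (p a).im)
          - ((p b).im - (p a).im) * ((p e).re - (p a).re)) (c := 0) (by
          rw [mul_zero]
          linear_combination ((p b).im - (p a).im) * h + ((p y).im - (p e).im) * hx
            + ((p e).im - (p x).im) * hy)
      exact this
  have oa : ori (p a) (p b) (p a) = 0 := ori_self1 _ _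
  have ob : ori (p a) (p b) (p b) = 0 := ori_self2 _ _
  rcases lt_trichotomy e a with h | h | h
  · refine fin a b oa ob (ne_of a b hAB) (key a b c z4 (hp e a b h hab) (hp e b c (h.trans hab) hbc)
      hAC hAB)
  · rw [h] at he'
    exact he' oa
  rcases lt_trichotomy e b with h2 | h2 | h2
  · refine fin b c ob z4 (ne_of b c hBC) (key b c d z1 (hp e b c h2 hbc)
      (hp e c d (h2.trans hbc) hcd) hBD hBC)
  · rw [h2] at he'
    exact he' ob
  rcases lt_trichotomy e c with h3 | h3 | h3
  · have z2' : ori (p c) (p d) (p a) = 0 := by rw [← ori_cyc]; exact z2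
    refine fin c d z4 z3 (ne_of c d hCD) (key c d a z2' (hp e c d h3 hcd) ?_ ?_ hCD)
    · rw [← ori_cyc]
      exact hp a e d h (h3.trans hcd)
    · rw [mul_comm]; exact hAC
  · rw [h3] at he'
    exact he' z4
  rcases lt_trichotomy e d with h4' | h4' | h4'
  · have z3' : ori (p d) (p a) (p b) = 0 := by rw [ori_cyc]; exact z3
    refine fin d a z3 oa (ne_of d a hDA) (key d a b z3' ?_ ?_ ?_ hDA)
    · rw [← ori_cyc]
      exact hp a e d h h4'
    · rw [ori_cyc]
      exact hp a b e hab h2
    · rw [mul_comm]; exact hBD
  · rw [h4'] at he'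
    exact he' z3
  · refine fin a b oa ob (ne_of a b hAB) (key a b c z4 ?_ ?_ hAC hAB)
    · rw [ori_cyc]
      exact hp a b e hab h2
    · rw [ori_cyc]
      exact hp b c e hbc h3

end WCsec

end Pool.Agent.H5O.H55
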