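import Pool.Agent.Helper55_OPEN.Sector
import Pool.Agent.Helper1_Gen.OpBasic

/-!
The sectors of the fan form a partition of the reference triangle up to a null set.
-/

namespace Pool.Agent.H5O.H55

open MeasureTheory Complex Filter Topology Pool.Agent.H16Iso Pool.Agent.H1Gen
open scoped InnerProductSpace

section

variable {n : ℕ} {p : Fin (n + 3) → ℂ}

theorem exists_neg (hp : poly p = poly crn) {u : ℂ} (hu : u ≠ 0) :
    ∃ k, det u (p k - oc) < 0 := by
  by_contra hcon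
  push Not at hcon
  have h1 : ∀ i, 0 ≤ det u (crn i - oc) := half_crn hp hcon
  have h2 := oc_avg u oc
  rw [sub_self, det_zero_right, mul_zero] at h2
  have h3 := (Finset.sum_eq_zero_iff_of_nonneg (fun i _ => h1 i)).1 h2.symm
  obtain ⟨k, hk⟩ := off_line hp u hu oc
  apply hk
  rw [det_bp]
  exact Finset.sum_eq_zero fun i hi => by rw [h3 i hi, mul_zero]

theorem exists_pos (hp : poly p = poly crn) {u : ℂ} (hu : u ≠ 0) :
    ∃ k, 0 < det u (p k - oc) := by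
  obtain ⟨k, hk⟩ := exists_neg hp (neg_ne_zero.2 hu)
  rw [det_neg_left] at hk
  exact ⟨k, by linarith⟩

/-- the vector of the physical plane with coordinates `w` -/
noncomputable def phys (w : ℂ) : ℂ := ⟨w.re, Real.sqrt 3 * w.im⟩

theorem det_phys (p : Fin (n + 3) → ℂ) (k : Fin (n + 3)) (w : ℂ) :
    det w (pt p k) = det (phys w) (p k - oc) / Real.sqrt 3 := by
  have h3 := s3_pos.ne'
  unfold det phys pt ot oc
  simp only [Complex.sub_re, Complex.sub_im]
  field_simp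

theorem mem_secF (p : Fin (n + 3) → ℂ) (j : Fin (n + 3)) (z : ℂ) :
    z ∈ secF p j ↔ det (phys (z - ot)) (p j - oc) < 0 ∧
      0 < det (phys (z - ot)) (p (j + 1) - oc) := by
  show (0 < det (pt p j) (z - ot) ∧ 0 < det (z - ot) (pt p (j + 1))) ↔ _
  rw [det_swap (pt p j), det_phys, det_phys]
  constructor
  · rintro ⟨h1, h2⟩
    refine ⟨?_, (div_pos_iff_of_pos_right s3_pos).1 h2⟩
    have h3 : det (phys (z - ot)) (p j - oc) / Real.sqrt 3 < 0 := by linarith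
    by_contra hcon
    push Not at hcon
    have := div_nonneg hcon s3_pos.le
    linarith
  · rintro ⟨h1, h2⟩
    refine ⟨?_, div_pos h2 s3_pos⟩
    have := div_neg_of_neg_of_pos h1 s3_pos
    linarith

theorem sum_indicator_secF (hw : WC p) (hp : poly p = poly crn) {z : ℂ}
    (hz : ∀ k, det (z - ot) (pt p k) ≠ 0) (c : ℝ) :
    ∑ j, (secF p j).indicator (fun _ => c) z = c := by
  have hg : ∀ k, det (phys (z - ot)) (p k - oc) ≠ 0 := by
    intro k h
    apply hz k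
    rw [det_phys, h, zero_div]
  have hu : phys (z - ot) ≠ 0 := by
    intro h
    apply hg 0
    rw [h, det_zero_left]
  obtain ⟨j, hj1, hj2⟩ := exists_trans hg (exists_neg hp hu) (exists_pos hp hu)
  rw [Finset.sum_eq_single j]
  · rw [Set.indicator_of_mem ((mem_secF p j z).2 ⟨hj1, hj2⟩)]
  · intro l _ hl
    apply Set.indicator_of_notMem
    intro hmem
    obtain ⟨hl1, hl2⟩ := (mem_secF p l z).1 hmem
    exact hl (unique_trans hw (off_line hp) _ oc hl1 hl2 hj1 hj2)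
  · intro h
    exact absurd (Finset.mem_univ _) h

theorem pt_ne (hf : FPos p) (k : Fin (n + 3)) : pt p k ≠ 0 := by
  intro h
  have := det_pt_pos hf k
  rw [h, det_zero_left] at this
  exact lt_irrefl _ this

theorem ae_gen (hf : FPos p) : ∀ᵐ z : ℂ, ∀ k, det (z - ot) (pt p k) ≠ 0 := by
  rw [ae_all_iff]
  intro k
  have h1 := ae_det_ne (pt_ne hf k)
  have h2 := (measurePreserving_sub_right (volume : Measure ℂ) ot).quasiMeasurePreserving.ae h1
  filter_upwards [h2] with z hz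
  rw [det_swap]
  exact neg_ne_zero.2 hz

/-- multiplication by the indicator function of the sector `j` -/
noncomputable abbrev cutF (p : Fin (n + 3) → ℂ) (j : Fin (n + 3)) : L2T →L[ℝ] L2T :=
  cut (secF p j) (measurableSet_secF p j)

theorem sum_cutF (hw : WC p) (hi : Function.Injective p) (hp : poly p = poly crn) (f : L2T) :
    ∑ j, cutF p j f = f := by
  apply Lp.ext
  have h1 : ((∑ j, cutF p j f : L2T) : ℂ → ℝ) =ᵐ[volume.restrict Tri]
      fun z => ∑ j, (cutF p j f : ℂ → ℝ) z := by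
    have := Lp.coeFn_finsetSum (Finset.univ : Finset (Fin (n + 3))) (fun j => cutF p j f)
    refine this.trans ?_
    exact Filter.Eventually.of_forall fun z => by simp [Finset.sum_apply]
  have h2 : ∀ᵐ z ∂(volume.restrict Tri), ∀ j, (cutF p j f : ℂ → ℝ) z =
      (secF p j).indicator f z := by
    rw [ae_all_iff]
    exact fun j => Op3.coeFn_cut _ _ f
  have h3 : ∀ᵐ z ∂(volume.restrict Tri), ∀ k, det (z - ot) (pt p k) ≠ 0 :=
    ae_restrict_of_ae (ae_gen (fpos hw hi hp))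
  filter_upwards [h1, h2, h3] with z g1 g2 g3
  rw [g1]
  simp only [g2]
  refine Eq.trans ?_ (sum_indicator_secF hw hp g3 ((f : ℂ → ℝ) z))
  refine Finset.sum_congr rfl fun j _ => ?_
  by_cases h : z ∈ secF p j
  · rw [Set.indicator_of_mem h, Set.indicator_of_mem h]
  · rw [Set.indicator_of_notMem h, Set.indicator_of_notMem h]

theorem sum_norm_cutF (hw : WC p) (hi : Function.Injective p) (hp : poly p = poly crn) (f : L2T) :
    ∑ j, ‖cutF p j f‖ ^ 2 = ‖f‖ ^ 2 := by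
  have h1 : ∀ j, ‖cutF p j f‖ ^ 2 = ⟪cutF p j f, f⟫_ℝ := by
    intro j
    rw [← real_inner_self_eq_norm_sq]
    exact (Op3.inner_cut_self _ _ f f).symm
  simp only [h1]
  rw [← sum_inner, sum_cutF hw hi hp, real_inner_self_eq_norm_sq]

theorem sum_inner_cutF (hw : WC p) (hi : Function.Injective p) (hp : poly p = poly crn)
    (f g : L2T) : ∑ j, ⟪cutF p j f, cutF p j g⟫_ℝ = ⟪f, g⟫_ℝ := by
  simp only [show ∀ j, ⟪cutF p j f, cutF p j g⟫_ℝ = ⟪cutF p j f, g⟫_ℝ from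
    fun j => (Op3.inner_cut_self _ _ f g).symm]
  rw [← sum_inner, sum_cutF hw hi hp]

/-! ### The coefficients -/

variable {q : Fin (n + 3) → ℂ}

theorem cJF_eq (p q : Fin (n + 3) → ℂ) (j : Fin (n + 3)) :
    cJF p q j = (det (pt p j) (pt p (j + 1)))⁻¹ * det (q j - oc) (q (j + 1) - oc) := by
  unfold cJF alF beF
  by_cases h : det (pt p j) (pt p (j + 1)) = 0
  · rw [h]
    simp [det]
  have h1 := inv_mul_cancel₀ h
  generalize hD : (det (pt p j) (pt p (j + 1)))⁻¹ = D at *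
  unfold det at h1 ⊢
  simp only [Complex.sub_re, Complex.smul_re, Complex.sub_im, Complex.smul_im, smul_eq_mul]
  linear_combination (D * (((q j).re - oc.re) * ((q (j + 1)).im - oc.im)
    - ((q j).im - oc.im) * ((q (j + 1)).re - oc.re))) * h1

theorem cJF_pos (hp : FPos p) (hq : FPos q) (j : Fin (n + 3)) : 0 < cJF p q j := by
  rw [cJF_eq]
  exact mul_pos (inv_pos.2 (det_pt_pos hp j)) (hq j)

theorem coefF_det (hp : FPos p) (hq : FPos q) (j : Fin (n + 3)) :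
    c1F p q j * c3F p q j - c2F p q j ^ 2 = 1 := by
  have h := (cJF_pos hp hq j).ne'
  have h2 : cJF p q j = det (alF p (fun k => q k - oc) j) (beF p (fun k => q k - oc) j) := rfl
  unfold c1F c2F c3F
  rw [div_mul_div_comm, div_pow, ← sq, ← sub_div, div_eq_one_iff_eq (pow_ne_zero 2 h), h2]
  unfold det
  rw [normSq_apply, normSq_apply]
  ring

theorem c1F_pos (hp : FPos p) (hq : FPos q) (j : Fin (n + 3)) : 0 < c1F p q j := by
  have h := coefF_det hp hq j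
  have h1 : 0 ≤ c1F p q j := div_nonneg (normSq_nonneg _) (cJF_pos hp hq j).le
  have h3 : 0 ≤ c3F p q j := div_nonneg (normSq_nonneg _) (cJF_pos hp hq j).le
  rcases h1.eq_or_lt with h0 | h0
  · rw [← h0] at h
    nlinarith [sq_nonneg (c2F p q j)]
  · exact h0

theorem c3F_pos (hp : FPos p) (hq : FPos q) (j : Fin (n + 3)) : 0 < c3F p q j := by
  have h := coefF_det hp hq j
  have h1 : 0 ≤ c1F p q j := div_nonneg (normSq_nonneg _) (cJF_pos hp hq j).le
  have h3 : 0 ≤ c3F p q j := div_nonneg (normSq_nonneg _) (cJF_pos hp hq j).le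
  rcases h3.eq_or_lt with h0 | h0
  · rw [← h0] at h
    nlinarith [sq_nonneg (c2F p q j)]
  · exact h0

open ContinuousLinearMap in
theorem inner_BopF (M : Model) (p q : Fin (n + 3) → ℂ) (f g : H) :
    ⟪BopF M p q f, g⟫_ℝ = ∑ j, (c1F p q j * ⟪cutF p j (M.D1 f), cutF p j (M.D1 g)⟫_ℝ
      + c2F p q j * (⟪cutF p j (M.D2 f), cutF p j (M.D1 g)⟫_ℝ
        + ⟪cutF p j (M.D1 f), cutF p j (M.D2 g)⟫_ℝ)
      + c3F p q j * ⟪cutF p j (M.D2 f), cutF p j (M.D2 g)⟫_ℝ) := by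
  unfold BopF
  rw [sum_apply, sum_inner]
  refine Finset.sum_congr rfl fun j _ => ?_
  have key : ∀ u v : L2T, ⟪cutF p j u, v⟫_ℝ = ⟪cutF p j u, cutF p j v⟫_ℝ :=
    fun u v => Op3.inner_cut_self _ _ u v
  simp only [add_apply, smul_apply, comp_apply, inner_add_left, real_inner_smul_left,
    adjoint_inner_left]
  rw [key (M.D1 f) (M.D1 g), key (M.D2 f) (M.D1 g), key (M.D1 f) (M.D2 g),
    key (M.D2 f) (M.D2 g)]

open ContinuousLinearMap in
theorem inner_CopF (M : Model) (p q : Fin (n + 3) → ℂ) (f g : H) :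
    ⟪CopF M p q f, g⟫_ℝ = ∑ j, cJF p q j * ⟪cutF p j (M.D0 f), cutF p j (M.D0 g)⟫_ℝ := by
  unfold CopF
  rw [sum_apply, sum_inner]
  refine Finset.sum_congr rfl fun j _ => ?_
  have key : ∀ u v : L2T, ⟪cutF p j u, v⟫_ℝ = ⟪cutF p j u, cutF p j v⟫_ℝ :=
    fun u v => Op3.inner_cut_self _ _ u v
  simp only [comp_apply, smul_apply, real_inner_smul_left, adjoint_inner_left]
  rw [key (M.D0 f) (M.D0 g)]

theorem BopF_selfAdjoint (M : Model) (p q : Fin (n + 3) → ℂ) : IsSelfAdjoint (BopF M p q) := by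
  rw [ContinuousLinearMap.isSelfAdjoint_iff_isSymmetric]
  intro f g
  change ⟪BopF M p q f, g⟫_ℝ = ⟪f, BopF M p q g⟫_ℝ
  rw [real_inner_comm (BopF M p q g) f, inner_BopF, inner_BopF]
  refine Finset.sum_congr rfl fun j _ => ?_
  rw [real_inner_comm (cutF p j (M.D1 g)) (cutF p j (M.D1 f)),
    real_inner_comm (cutF p j (M.D1 g)) (cutF p j (M.D2 f)),
    real_inner_comm (cutF p j (M.D2 g)) (cutF p j (M.D1 f)),
    real_inner_comm (cutF p j (M.D2 g)) (cutF p j (M.D2 f))]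
  ring

theorem CopF_selfAdjoint (M : Model) (p q : Fin (n + 3) → ℂ) : IsSelfAdjoint (CopF M p q) := by
  rw [ContinuousLinearMap.isSelfAdjoint_iff_isSymmetric]
  intro f g
  change ⟪CopF M p q f, g⟫_ℝ = ⟪f, CopF M p q g⟫_ℝ
  rw [real_inner_comm (CopF M p q g) f, inner_CopF, inner_CopF]
  refine Finset.sum_congr rfl fun j _ => ?_
  rw [real_inner_comm (cutF p j (M.D0 g)) (cutF p j (M.D0 f))]

theorem BopF_coercive (M : Model) (hw : WC p) (hi : Function.Injective p)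
    (hp : poly p = poly crn) (hq : FPos q) :
    ∃ c > 0, ∀ f : H, c * ‖f‖ ^ 2 ≤ ⟪BopF M p q f, f⟫_ℝ := by
  have hf := fpos hw hi hp
  obtain ⟨μ, hμ0, hμ⟩ : ∃ μ > 0, ∀ j : Fin (n + 3), μ ≤ (c1F p q j + c3F p q j)⁻¹ := by
    obtain ⟨j0, hj0⟩ := Finite.exists_min fun j => (c1F p q j + c3F p q j)⁻¹
    exact ⟨_, inv_pos.mpr (add_pos (c1F_pos hf hq j0) (c3F_pos hf hq j0)), hj0⟩
  refine ⟨μ / Real.sqrt 3, by positivity, fun f => ?_⟩
  have h1 : μ * (‖M.D1 f‖ ^ 2 + ‖M.D2 f‖ ^ 2) ≤ ⟪BopF M p q f, f⟫_ℝ := by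
    rw [inner_BopF, ← sum_norm_cutF hw hi hp (M.D1 f), ← sum_norm_cutF hw hi hp (M.D2 f),
      ← Finset.sum_add_distrib, Finset.mul_sum]
    refine Finset.sum_le_sum fun j _ => ?_
    have h2 := Op3.quad_lower (c1F_pos hf hq j) (c3F_pos hf hq j) (coefF_det hf hq j)
      (cutF p j (M.D1 f)) (cutF p j (M.D2 f))
    have h3 : μ * (‖cutF p j (M.D1 f)‖ ^ 2 + ‖cutF p j (M.D2 f)‖ ^ 2) ≤
        (c1F p q j + c3F p q j)⁻¹ * (‖cutF p j (M.D1 f)‖ ^ 2 + ‖cutF p j (M.D2 f)‖ ^ 2) :=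
      mul_le_mul_of_nonneg_right (hμ j) (by positivity)
    rw [real_inner_self_eq_norm_sq, real_inner_self_eq_norm_sq,
      real_inner_comm (cutF p j (M.D1 f)) (cutF p j (M.D2 f))]
    linarith
  have h3 : ‖f‖ ^ 2 = Real.sqrt 3 * ‖M.D1 f‖ ^ 2 + (Real.sqrt 3)⁻¹ * ‖M.D2 f‖ ^ 2 := by
    rw [← real_inner_self_eq_norm_sq, M.inner_eq, real_inner_self_eq_norm_sq,
      real_inner_self_eq_norm_sq]
  have h4 : (0 : ℝ) < Real.sqrt 3 := by positivity
  have h5 : Real.sqrt 3 * Real.sqrt 3 = 3 := Real.mul_self_sqrt (by norm_num)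
  have h6 : (Real.sqrt 3)⁻¹ * (Real.sqrt 3)⁻¹ = 1 / 3 := by
    rw [← mul_inv, h5]; norm_num
  have h7 : (Real.sqrt 3)⁻¹ * Real.sqrt 3 = 1 := inv_mul_cancel₀ h4.ne'
  calc μ / Real.sqrt 3 * ‖f‖ ^ 2 = μ * (((Real.sqrt 3)⁻¹ * Real.sqrt 3) * ‖M.D1 f‖ ^ 2 +
        ((Real.sqrt 3)⁻¹ * (Real.sqrt 3)⁻¹) * ‖M.D2 f‖ ^ 2) := by rw [h3]; ring
    _ ≤ μ * (‖M.D1 f‖ ^ 2 + ‖M.D2 f‖ ^ 2) := by
        rw [h6, h7]
        apply mul_le_mul_of_nonneg_left _ hμ0.le
        nlinarith [sq_nonneg ‖M.D2 f‖]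
    _ ≤ _ := h1

theorem CopF_pos (M : Model) (hw : WC p) (hi : Function.Injective p)
    (hp : poly p = poly crn) (hq : FPos q) : ∀ f : H, f ≠ 0 → 0 < ⟪CopF M p q f, f⟫_ℝ := by
  intro f hf
  obtain ⟨μ, hμ0, hμ⟩ : ∃ μ > 0, ∀ j : Fin (n + 3), μ ≤ cJF p q j := by
    obtain ⟨j0, hj0⟩ := Finite.exists_min fun j => cJF p q j
    exact ⟨_, cJF_pos (fpos hw hi hp) hq j0, hj0⟩
  have h1 : μ * ‖M.D0 f‖ ^ 2 ≤ ⟪CopF M p q f, f⟫_ℝ := by
    rw [inner_CopF, ← sum_norm_cutF hw hi hp (M.D0 f), Finset.mul_sum]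
    refine Finset.sum_le_sum fun j _ => ?_
    rw [real_inner_self_eq_norm_sq]
    exact mul_le_mul_of_nonneg_right (hμ j) (sq_nonneg _)
  refine lt_of_lt_of_le ?_ h1
  have h2 : 0 < ‖M.D0 f‖ := norm_pos_iff.mpr fun h => hf (Op3.D0_inj M h)
  positivity

end

end Pool.Agent.H5O.H55
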