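import Pool.Agent.Helper55_OPEN.Flat
import Pool.Agent.Helper1_Gen.Rellich

/-!
The sectors of the fan: parametrisation by the reference triangle, divergence theorem.
-/

namespace Pool.Agent.H5O.H55

open MeasureTheory Complex Filter Topology Pool.Agent.H16Iso Pool.Agent.H1Gen

/-- barycentric coordinates in the coordinates of `Tri` -/
noncomputable def bt3 : Fin 3 → ℂ → ℝ :=
  ![fun z => 1 - z.re, fun z => z.re - z.im, fun z => z.im]

theorem mem_Tri_iff3 (z : ℂ) : z ∈ Tri ↔ ∀ i, 0 < bt3 i z := by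
  rw [Fin.forall_fin_succ, Fin.forall_fin_succ, Fin.forall_fin_one]
  show (0 < z.im ∧ z.im < z.re ∧ z.re < 1) ↔ (0 < 1 - z.re ∧ 0 < z.re - z.im ∧ 0 < z.im)
  constructor
  · rintro ⟨h1, h2, h3⟩
    exact ⟨by linarith, by linarith, h1⟩
  · rintro ⟨h1, h2, h3⟩
    exact ⟨h3, by linarith, by linarith⟩

theorem bt3_comb (i : Fin 3) (a b : ℂ) (s t : ℝ) :
    bt3 i (ot + (s • (a - ot) + t • (b - ot))) = (1 - s - t) / 3 + s * bt3 i a + t * bt3 i b := by
  fin_cases i
  · show 1 - (ot + (s • (a - ot) + t • (b - ot))).re = (1 - s - t) / 3 + s * (1 - a.re)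
      + t * (1 - b.re)
    simp only [ot, Complex.add_re, Complex.smul_re, Complex.sub_re, smul_eq_mul]
    ring
  · show (ot + (s • (a - ot) + t • (b - ot))).re - (ot + (s • (a - ot) + t • (b - ot))).im
      = (1 - s - t) / 3 + s * (a.re - a.im) + t * (b.re - b.im)
    simp only [ot, Complex.add_re, Complex.smul_re, Complex.sub_re, smul_eq_mul, Complex.add_im,
      Complex.smul_im, Complex.sub_im]
    ring
  · show (ot + (s • (a - ot) + t • (b - ot))).im = (1 - s - t) / 3 + s * a.im + t * b.im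
    simp only [ot, smul_eq_mul, Complex.add_im, Complex.smul_im, Complex.sub_im]
    ring

section

variable {n : ℕ} {p : Fin (n + 3) → ℂ}

theorem bt3_pt (i : Fin 3) (p : Fin (n + 3) → ℂ) (j : Fin (n + 3)) :
    bt3 i (pt p j + ot) = bp i (p j) := by
  unfold pt
  rw [sub_add_cancel]
  fin_cases i <;> rfl

theorem det_pt (p : Fin (n + 3) → ℂ) (j k : Fin (n + 3)) :
    det (pt p j) (pt p k) = det (p j - oc) (p k - oc) / Real.sqrt 3 := by
  have h3 := s3_pos.ne'
  unfold pt det ot oc
  simp only [Complex.sub_re, Complex.sub_im]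
  field_simp

theorem det_pt_pos (hf : FPos p) (j : Fin (n + 3)) : 0 < det (pt p j) (pt p (j + 1)) := by
  rw [det_pt]
  exact div_pos (hf j) s3_pos

/-- the parametrisation of the sector number `j` -/
noncomputable def Lp (p : Fin (n + 3) → ℂ) (j : Fin (n + 3)) (w : ℂ) : ℂ :=
  linPQ (pt p j) (pt p (j + 1) - pt p j) w + ot

theorem Lp_eq (p : Fin (n + 3) → ℂ) (j : Fin (n + 3)) (w : ℂ) :
    Lp p j w = ot + ((w.re - w.im) • pt p j + w.im • pt p (j + 1)) := by
  unfold Lp
  rw [linPQ_apply]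
  apply Complex.ext
  · simp only [Complex.add_re, Complex.smul_re, Complex.sub_re, smul_eq_mul]
    ring
  · simp only [Complex.add_im, Complex.smul_im, Complex.sub_im, smul_eq_mul]
    ring

theorem image_Lp (hw : WC p) (hi : Function.Injective p) (hp : poly p = poly crn)
    (j : Fin (n + 3)) : Lp p j '' Tri = secF p j ∩ Tri := by
  have hJ := det_pt_pos (fpos hw hi hp) j
  have hpt : ∀ k, pt p k = (pt p k + ot) - ot := fun k => by ring
  ext z
  constructor
  · rintro ⟨w, ⟨h1, h2, h3⟩, rfl⟩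
    rw [Lp_eq]
    refine ⟨⟨?_, ?_⟩, ?_⟩
    · show 0 < det (pt p j) (ot + ((w.re - w.im) • pt p j + w.im • pt p (j + 1)) - ot)
      rw [add_sub_cancel_left, det_add_right, det_smul_right, det_smul_right, det_self, mul_zero,
        zero_add]
      exact mul_pos h1 hJ
    · show 0 < det (ot + ((w.re - w.im) • pt p j + w.im • pt p (j + 1)) - ot) (pt p (j + 1))
      rw [add_sub_cancel_left, det_add_left, det_smul_left, det_smul_left, det_self, mul_zero,
        add_zero]
      exact mul_pos (by linarith) hJ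
    · rw [mem_Tri_iff3]
      intro i
      rw [hpt j, hpt (j + 1), bt3_comb, bt3_pt, bt3_pt]
      have g1 := mul_nonneg (sub_nonneg.2 h2.le) (bp_nonneg hp j i)
      have g2 := mul_nonneg h1.le (bp_nonneg hp (j + 1) i)
      have g3 : 0 < (1 - (w.re - w.im) - w.im) / 3 := by linarith
      linarith
  · rintro ⟨⟨h1, h2⟩, h3⟩
    set J := det (pt p j) (pt p (j + 1)) with hJd
    set s : ℝ := det (z - ot) (pt p (j + 1)) / J with hs
    set t : ℝ := det (pt p j) (z - ot) / J with ht
    have hs0 : 0 < s := div_pos h2 hJ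
    have ht0 : 0 < t := div_pos h1 hJ
    have hz : z = ot + (s • pt p j + t • pt p (j + 1)) := by
      have := cramer (a := pt p j) (b := pt p (j + 1)) hJ.ne' (z - ot)
      rw [← hJd, ← hs, ← ht] at this
      rw [← this]
      ring
    obtain ⟨i, i1, i2⟩ := same_side hw hi hp j
    have h4 := (mem_Tri_iff3 z).1 h3 i
    rw [hz, hpt j, hpt (j + 1), bt3_comb, bt3_pt, bt3_pt, i1, i2] at h4
    refine ⟨⟨s + t, t⟩, ⟨ht0, by simpa using hs0, by simp only; linarith⟩, ?_⟩
    rw [Lp_eq, hz]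
    simp

theorem isOpen_secF (p : Fin (n + 3) → ℂ) (j : Fin (n + 3)) : IsOpen (secF p j) := by
  have h1 : IsOpen {z : ℂ | 0 < det (pt p j) (z - ot)} :=
    isOpen_lt continuous_const (by unfold det; fun_prop)
  have h2 : IsOpen {z : ℂ | 0 < det (z - ot) (pt p (j + 1))} :=
    isOpen_lt continuous_const (by unfold det; fun_prop)
  exact h1.inter h2

theorem Tri_eq_sector : {z : ℂ | 0 * z.re < z.im ∧ z.im < 1 * z.re} ∩ Tri = Tri := by
  ext z
  constructor
  · exact fun h => h.2
  · intro h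
    refine ⟨⟨by rw [zero_mul]; exact h.1, by rw [one_mul]; exact h.2.1⟩, h⟩

/-- change of variables -/
theorem int_secF (hw : WC p) (hi : Function.Injective p) (hp : poly p = poly crn)
    (j : Fin (n + 3)) (f : ℂ → ℝ) :
    ∫ z in secF p j ∩ Tri, f z = det (pt p j) (pt p (j + 1)) * ∫ w in Tri, f (Lp p j w) := by
  have hJ := det_pt_pos (fpos hw hi hp) j
  have hd : det (pt p j) (pt p (j + 1) - pt p j) = det (pt p j) (pt p (j + 1)) := by
    rw [det_sub_right, det_self, sub_zero]
  have hd' : det (pt p j) (pt p (j + 1) - pt p j) ≠ 0 := by rw [hd]; exact hJ.ne'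
  have hder : ∀ z ∈ Tri, HasFDerivWithinAt (Lp p j)
      (linPQ (pt p j) (pt p (j + 1) - pt p j)) Tri z := fun z _ =>
    ((linPQ (pt p j) (pt p (j + 1) - pt p j)).hasFDerivAt.add_const ot).hasFDerivWithinAt
  have hinj : Set.InjOn (Lp p j) Tri := by
    intro a _ b _ h
    have h' : linPQ (pt p j) (pt p (j + 1) - pt p j) a
        = linPQ (pt p j) (pt p (j + 1) - pt p j) b := by
      unfold Lp at h
      exact add_right_cancel h
    have := congrArg (linInv (pt p j) (pt p (j + 1) - pt p j)) h'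
    rwa [linInv_linPQ hd', linInv_linPQ hd'] at this
  rw [← image_Lp hw hi hp j, integral_image_eq_integral_abs_det_fderiv_smul volume
    (Pool.Agent.H1Gen.isOpen_Tri).measurableSet hder hinj, ← integral_const_mul]
  refine setIntegral_congr_fun (Pool.Agent.H1Gen.isOpen_Tri).measurableSet fun z _ => ?_
  simp only [linPQ_det, hd, abs_of_pos hJ, smul_eq_mul]

/-- flux through a segment `ot + r a`, `0 ≤ r ≤ 1` -/
noncomputable def fluxR (F1 F2 : ℂ → ℝ) (a : ℂ) : ℝ :=
  ∫ r in (0 : ℝ)..1, (F1 (ot + r • a) * a.im - F2 (ot + r • a) * a.re)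

/-- divergence theorem on a sector -/
theorem div_secF (hw : WC p) (hi : Function.Injective p) (hp : poly p = poly crn)
    (j : Fin (n + 3)) {F1 F2 : ℂ → ℝ} (h1 : ContDiff ℝ 1 F1) (h2 : ContDiff ℝ 1 F2) :
    ∫ z in secF p j ∩ Tri, (fderiv ℝ F1 z 1 + fderiv ℝ F2 z I)
      = (∫ t in (0 : ℝ)..1,
          (F1 (ot + (pt p j + t • (pt p (j + 1) - pt p j))) * (pt p (j + 1) - pt p j).im
            - F2 (ot + (pt p j + t • (pt p (j + 1) - pt p j))) * (pt p (j + 1) - pt p j).re))
        + (fluxR F1 F2 (pt p j) - fluxR F1 F2 (pt p (j + 1))) := by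
  set a := pt p j with ha
  set b := pt p (j + 1) with hb
  set L := linPQ a (b - a) with hL
  have hLd : ∀ w : ℂ, HasFDerivAt (fun w => L w + ot) L w := fun w =>
    L.hasFDerivAt.add_const ot
  have hLc : ContDiff ℝ 1 (fun w => L w + ot) := L.contDiff.add contDiff_const
  have hL1 : L 1 = a := by rw [hL, linPQ_apply]; simp
  have hLI : L I = b - a := by rw [hL, linPQ_apply]; simp
  set G1 : ℂ → ℝ := fun w => F1 (L w + ot) * (b - a).im - F2 (L w + ot) * (b - a).re with hG1
  set G2 : ℂ → ℝ := fun w => F2 (L w + ot) * a.re - F1 (L w + ot) * a.im with hG2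
  have c1 : ContDiff ℝ 1 G1 := ((h1.comp hLc).mul contDiff_const).sub
    ((h2.comp hLc).mul contDiff_const)
  have c2 : ContDiff ℝ 1 G2 := ((h2.comp hLc).mul contDiff_const).sub
    ((h1.comp hLc).mul contDiff_const)
  have d1 : ∀ z v, fderiv ℝ (fun w => F1 (L w + ot)) z v = fderiv ℝ F1 (L z + ot) (L v) := by
    intro z v
    have := (h1.differentiable (by norm_num) (L z + ot)).hasFDerivAt.comp z (hLd z)
    rw [show (fun w => F1 (L w + ot)) = F1 ∘ (fun w => L w + ot) from rfl, this.fderiv]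
    rfl
  have d2 : ∀ z v, fderiv ℝ (fun w => F2 (L w + ot)) z v = fderiv ℝ F2 (L z + ot) (L v) := by
    intro z v
    have := (h2.differentiable (by norm_num) (L z + ot)).hasFDerivAt.comp z (hLd z)
    rw [show (fun w => F2 (L w + ot)) = F2 ∘ (fun w => L w + ot) from rfl, this.fderiv]
    rfl
  have e1 : ∀ z, DifferentiableAt ℝ (fun w => F1 (L w + ot)) z := fun z =>
    (h1.comp hLc).differentiable (by norm_num) z
  have e2 : ∀ z, DifferentiableAt ℝ (fun w => F2 (L w + ot)) z := fun z =>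
    (h2.comp hLc).differentiable (by norm_num) z
  have lin : ∀ (A : ℂ →L[ℝ] ℝ) (w : ℂ), A w = w.re * A 1 + w.im * A I := lin_apply
  have hG : ∀ z, fderiv ℝ G1 z 1 + fderiv ℝ G2 z I
      = det a b * (fderiv ℝ F1 (L z + ot) 1 + fderiv ℝ F2 (L z + ot) I) := by
    intro z
    have g1 : fderiv ℝ G1 z 1 = fderiv ℝ F1 (L z + ot) a * (b - a).im
        - fderiv ℝ F2 (L z + ot) a * (b - a).re := by
      rw [hG1, fderiv_fun_sub ((e1 z).mul_const _) ((e2 z).mul_const _),
        fderiv_mul_const (e1 z), fderiv_mul_const (e2 z)]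
      simp only [sub_apply, smul_apply, smul_eq_mul, d1, d2, hL1]
      ring
    have g2 : fderiv ℝ G2 z I = fderiv ℝ F2 (L z + ot) (b - a) * a.re
        - fderiv ℝ F1 (L z + ot) (b - a) * a.im := by
      rw [hG2, fderiv_fun_sub ((e2 z).mul_const _) ((e1 z).mul_const _),
        fderiv_mul_const (e1 z), fderiv_mul_const (e2 z)]
      simp only [sub_apply, smul_apply, smul_eq_mul, d1, d2, hLI]
      ring
    rw [g1, g2, lin (fderiv ℝ F1 (L z + ot)) a, lin (fderiv ℝ F2 (L z + ot)) a,
      lin (fderiv ℝ F1 (L z + ot)) (b - a), lin (fderiv ℝ F2 (L z + ot)) (b - a)]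
    unfold det
    simp only [Complex.sub_re, Complex.sub_im]
    ring
  have hcont : Continuous (fun z => fderiv ℝ G1 z 1 + fderiv ℝ G2 z I) :=
    ((c1.continuous_fderiv (by norm_num)).clm_apply continuous_const).add
      ((c2.continuous_fderiv (by norm_num)).clm_apply continuous_const)
  have s1 : ∫ z in secF p j ∩ Tri, (fderiv ℝ F1 z 1 + fderiv ℝ F2 z I)
      = ∫ z in Tri, (fderiv ℝ G1 z 1 + fderiv ℝ G2 z I) := by
    rw [int_secF hw hi hp j, ← integral_const_mul]
    simp only [hG]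
    rfl
  have s2 := RellichAux.sector_int hcont (a := 0) (b := 1) le_rfl zero_lt_one le_rfl
  rw [Tri_eq_sector] at s2
  rw [s1, s2, RellichAux.sector_div c1 c2 0 1]
  have pe : ∀ ζ ρ : ℝ, L (RellichAux.pt ζ ρ) + ot = ot + (ζ • a + (ρ * ζ) • (b - a)) := by
    intro ζ ρ
    rw [hL, linPQ_apply]
    simp only [RellichAux.pt]
    ring
  congr 1
  · congr 1
    funext t
    simp only [hG1, pe]
    rw [one_smul, mul_one]
  · have i1 : ∫ ζ in (0 : ℝ)..1, (G2 (RellichAux.pt ζ 0) - 0 * G1 (RellichAux.pt ζ 0))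
        = - fluxR F1 F2 a := by
      unfold fluxR
      rw [← intervalIntegral.integral_neg]
      congr 1
      funext ζ
      simp only [hG2, pe, zero_mul, sub_zero, zero_smul, add_zero]
      ring
    have i2 : ∫ ζ in (0 : ℝ)..1, (G2 (RellichAux.pt ζ 1) - 1 * G1 (RellichAux.pt ζ 1))
        = - fluxR F1 F2 b := by
      unfold fluxR
      rw [← intervalIntegral.integral_neg]
      congr 1
      funext ζ
      have e : ot + (ζ • a + (1 * ζ) • (b - a)) = ot + ζ • b := by
        rw [one_mul, smul_sub]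
        ring
      simp only [hG1, hG2, pe, e, Complex.sub_re, Complex.sub_im]
      ring
    rw [i1, i2]
    ring

end

end Pool.Agent.H5O.H55
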